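import Pool.Agent.Helper45.SP.GoalsF
import Pool.Agent.Helper95.Lin.Basics
import Pool.Agent.Helper19.Lin.IDT

/-! # Packet SP-LTRANS -/

open Complex Metric Set Filter Topology
open scoped ContDiff ComplexConjugate

namespace Pool.Agent.Helper62.SP

open Pool.Agent.Helper95.Lin Pool.Agent.Helper10.SP Pool.Agent.Helper45.SP

/-- Difference quotients. -/
theorem diffQ {b m : ℕ} {h : Cn b → Cn m} {z v : Cn b} (hh : DifferentiableAt ℂ h z)
    {u : ℕ → Cn b} {σ : ℕ → ℝ} (hu : Tendsto u atTop (𝓝 0))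
    (hv : Tendsto (fun n => (σ n)⁻¹ • u n) atTop (𝓝 v)) :
    Tendsto (fun n => (σ n)⁻¹ • (h (z + u n) - h z)) atTop (𝓝 (fderiv ℂ h z v)) := by
  have h1 : HasFDerivAt h ((fderiv ℂ h z).restrictScalars ℝ) z :=
    hh.hasFDerivAt.restrictScalars ℝ
  have h2 := (h1.hasFDerivWithinAt (s := univ)).lim hu (Eventually.of_forall fun _ => mem_univ _)
    hv
  exact h2

theorem LTRANS (hS : S_LSUB) : S_LTRANS := by
  intro b z₀ z₁ r r₁ A A' hA hA' x y d d' h k hd hd' hxd hyd hh hhm hk hkm hhk hconj V hV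
  -- radii
  have hky : k y ∈ ball x d := hkm (mem_ball_self hd')
  obtain ⟨d₁, hd1, hd1d⟩ : ∃ d₁, dist (k y) x < d₁ ∧ d₁ < d := exists_between (mem_ball.1 hky)
  obtain ⟨d₂, hd12, hd2d⟩ := exists_between hd1d
  have hd1pos : 0 < d₁ := lt_of_le_of_lt dist_nonneg hd1
  obtain ⟨ρ', hρ'r, hρ'x⟩ := exists_lt_subset_ball (isClosed_closedBall (x := x) (ε := d₁))
    ((closedBall_subset_ball hd1d).trans hxd)
  have hrpos := hA.pos
  obtain ⟨ρ, hρ1, hρr⟩ : ∃ ρ, max ρ' (r / 2) < ρ ∧ ρ < r :=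
    exists_between (max_lt hρ'r (by linarith))
  have hρ2 : r / 2 < ρ := lt_of_le_of_lt (le_max_right _ _) hρ1
  have hρx : ball x d₁ ⊆ ball z₀ ρ := (ball_subset_closedBall.trans hρ'x).trans
    (ball_subset_ball (le_of_lt (lt_of_le_of_lt (le_max_left _ _) hρ1)))
  -- bound of `V`
  obtain ⟨B, hB⟩ := (isCompact_closedBall z₀ ρ).exists_bound_of_continuousOn
    (hV.1.continuousOn.mono (closedBall_subset_ball hρr))
  obtain ⟨B', hB', hB'0⟩ : ∃ B', B + 1 ≤ B' ∧ 0 < B' :=
    ⟨max (B + 1) 1, le_max_left _ _, lt_of_lt_of_le one_pos (le_max_right _ _)⟩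
  obtain ⟨η, hη, hconj⟩ := hconj
  obtain ⟨c, hc, hc1, hc2⟩ : ∃ c > 0, B' * c ≤ η ∧ B' * c ≤ d₂ - d₁ := by
    refine ⟨min η (d₂ - d₁) / B', by
      have : 0 < min η (d₂ - d₁) := lt_min hη (by linarith)
      positivity, ?_, ?_⟩
    · rw [mul_div_cancel₀ _ hB'0.ne']
      exact min_le_left _ _
    · rw [mul_div_cancel₀ _ hB'0.ne']
      exact min_le_right _ _
  -- the sequence
  have hseq : ∀ n : ℕ, ∃ (σ : ℝ) (t : Tri b), 0 < σ ∧ σ ≤ c / (n + 1) ∧ t ∈ A ∧
      ∀ z ∈ ball z₀ ρ, ‖t.g z - z - σ • V z‖ ≤ 1 / ((n : ℝ) + 1) * σ := by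
    intro n
    obtain ⟨σ₀, hσ₀, h1⟩ := hV.2.2 ρ hρr (1 / ((n : ℝ) + 1)) (by positivity)
    have hpos : 0 < min (σ₀ / 2) (c / ((n : ℝ) + 1)) := lt_min (by linarith) (by positivity)
    obtain ⟨t, ht, h2⟩ := h1 _ hpos (lt_of_le_of_lt (min_le_left _ _) (by linarith))
    exact ⟨_, t, hpos, min_le_right _ _, ht, h2⟩
  choose σ t hσ hσc htA hest using hseq
  have hσc' : ∀ n, σ n ≤ c := fun n => (hσc n).trans (div_le_self hc.le (by
    have : (0 : ℝ) ≤ n := Nat.cast_nonneg n
    linarith))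
  have hdisp : ∀ n, ∀ z ∈ ball z₀ ρ, ‖(t n).g z - z‖ ≤ B' * σ n := by
    intro n z hz
    have h1 := hest n z hz
    have h2 := hB z (ball_subset_closedBall hz)
    have h3 : 1 / ((n : ℝ) + 1) * σ n ≤ σ n := by
      have : 1 / ((n : ℝ) + 1) ≤ 1 := by
        rw [div_le_one (by positivity)]
        have : (0 : ℝ) ≤ n := Nat.cast_nonneg n
        linarith
      have := mul_le_mul_of_nonneg_right this (hσ n).le
      linarith
    have h4 : ‖σ n • V z‖ ≤ σ n * B := by
      rw [norm_smul, Real.norm_of_nonneg (hσ n).le]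
      exact mul_le_mul_of_nonneg_left h2 (hσ n).le
    have h5 : ‖(t n).g z - z‖ ≤ ‖(t n).g z - z - σ n • V z‖ + ‖σ n • V z‖ := by
      have := norm_add_le ((t n).g z - z - σ n • V z) (σ n • V z)
      rwa [sub_add_cancel] at this
    have h6 : (B + 1) * σ n ≤ B' * σ n := mul_le_mul_of_nonneg_right hB' (hσ n).le
    linarith
  have hnear : ∀ n, Near z₀ (r / 2) (t n).g η := fun n z hz =>
    (hdisp n z (ball_subset_ball hρ2.le hz)).trans
      ((mul_le_mul_of_nonneg_left (hσc' n) hB'0.le).trans hc1)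
  have hmaps : ∀ n, ∀ z ∈ ball x d₁, (t n).g z ∈ ball x d₂ := by
    intro n z hz
    have h1 := (hdisp n z (hρx hz)).trans
      ((mul_le_mul_of_nonneg_left (hσc' n) hB'0.le).trans hc2)
    rw [mem_ball] at hz ⊢
    rw [← dist_eq_norm] at h1
    have := dist_triangle ((t n).g z) z x
    linarith
  choose t' ht'A e he hcj using fun n => hconj (t n) (htA n) (hnear n)
  have hgx : ∀ n, DifferentiableOn ℂ (t n).g (ball x d₁) := fun n =>
    (hA.g_holo _ (htA n)).mono ((ball_subset_ball hd1d.le).trans hxd)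
  have hkey : ∀ n, ∀ z ∈ ball x d₁, (t' n).g (h z) = h ((t n).g z) := by
    intro n z hz
    have hx1 : x ∈ ball x d₁ := mem_ball_self hd1pos
    have h1 : DifferentiableOn ℂ (fun z => (t' n).g (h z) - h ((t n).g z)) (ball x d₁) := by
      refine DifferentiableOn.sub ?_ ?_
      · exact (hA'.g_holo _ (ht'A n)).comp (hh.mono (ball_subset_ball hd1d.le))
          fun z hz => hhm (ball_subset_ball hd1d.le hz)
      · exact hh.comp (hgx n) fun z hz => ball_subset_ball hd2d.le (hmaps n z hz)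
    have h2 := Pool.Agent.Helper19.Lin.idt (ball x d₁) isOpen_ball
      (convex_ball x d₁).isPreconnected _ h1 x hx1 (by
        filter_upwards [ball_mem_nhds x (he n)] with z hz
        rw [hcj n z hz, sub_self]) z hz
    exact sub_eq_zero.1 h2
  -- Lipschitz constant of `h`
  obtain ⟨Lh, hLh⟩ := (isCompact_closedBall x d₂).exists_bound_of_continuousOn
    ((holo_fderiv isOpen_ball hh).continuousOn.mono (closedBall_subset_ball hd2d))
  have hlip : ∀ z ∈ ball x d₂, ∀ z' ∈ ball x d₂, ‖h z' - h z‖ ≤ Lh * ‖z' - z‖ := by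
    intro z hz z' hz'
    refine (convex_ball x d₂).norm_image_sub_le_of_norm_fderiv_le (𝕜 := ℂ) (fun w hw => ?_)
      (fun w hw => hLh w (ball_subset_closedBall hw)) hz hz'
    exact (hh w (ball_subset_ball hd2d.le hw)).differentiableAt
      (isOpen_ball.mem_nhds (ball_subset_ball hd2d.le hw))
  have hLh0 : 0 ≤ Lh := (norm_nonneg _).trans
    (hLh x (mem_closedBall_self (by linarith)))
  -- `d''`
  have hkc : ContinuousAt k y := (hk y (mem_ball_self hd')).continuousWithinAt.continuousAt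
    (ball_mem_nhds y hd')
  obtain ⟨d'', hd'', hd''1, hd''2⟩ : ∃ d'' > 0, d'' ≤ d' ∧ ∀ w ∈ ball y d'', k w ∈ ball x d₁ := by
    have h1 : k ⁻¹' ball x d₁ ∈ 𝓝 y := hkc (isOpen_ball.mem_nhds (mem_ball.2 hd1))
    obtain ⟨δ, hδ, h2⟩ := Metric.mem_nhds_iff.1 h1
    exact ⟨min δ d', lt_min hδ hd', min_le_right _ _,
      fun w hw => h2 (ball_subset_ball (min_le_left _ _) hw)⟩
  have hσ0 : Tendsto σ atTop (𝓝 0) := by
    refine squeeze_zero (fun n => (hσ n).le) hσc ?_
    have := (tendsto_one_div_add_atTop_nhds_zero_nat (𝕜 := ℝ)).const_mul c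
    simp only [mul_zero] at this
    refine this.congr fun n => ?_
    rw [mul_one_div]
  have hwz : ∀ n, ∀ w ∈ ball y d'', (t' n).g w - w = h ((t n).g (k w)) - h (k w) := by
    intro n w hw
    have h1 := hhk w (ball_subset_ball hd''1 hw)
    rw [← hkey n (k w) (hd''2 w hw), h1]
  obtain ⟨φ, hφ, V', hV', hconv⟩ := hS hA' y d'' hd'' ((ball_subset_ball hd''1).trans hyd)
    t' σ ht'A hσ hσ0 ⟨Lh * B', fun n w hw => by
      rw [hwz n w hw]
      have h1 := hlip (k w) (ball_subset_ball hd12.le (hd''2 w hw)) _ (hmaps n (k w) (hd''2 w hw))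
      have h2 := hdisp n (k w) (hρx (hd''2 w hw))
      calc _ ≤ Lh * ‖(t n).g (k w) - k w‖ := h1
        _ ≤ Lh * (B' * σ n) := mul_le_mul_of_nonneg_left h2 hLh0
        _ = _ := by ring⟩
  -- the limit
  have hlim : ∀ w ∈ ball y d'', V' w = fderiv ℂ h (k w) (V (k w)) := by
    intro w hw
    set z := k w with hz
    have hz1 : z ∈ ball x d₁ := hd''2 w hw
    have hzd : z ∈ ball x d := ball_subset_ball hd1d.le hz1
    have hw1 : w ∈ ball z₁ r₁ := hyd (ball_subset_ball hd''1 hw)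
    obtain ⟨ρ₁, hρ1a, hρ1b⟩ := exists_between (mem_ball.1 hw1)
    -- left limit
    have l1 : Tendsto (fun n => (σ (φ n))⁻¹ • ((t' (φ n)).g w - w)) atTop (𝓝 (V' w)) := by
      rw [Metric.tendsto_nhds]
      intro ε hε
      filter_upwards [hconv ρ₁ hρ1b (ε / 2) (by linarith)] with n hn
      have h1 := hn w (mem_ball.2 hρ1a)
      have hs := hσ (φ n)
      rw [dist_eq_norm]
      have h2 : (σ (φ n))⁻¹ • ((t' (φ n)).g w - w) - V' w =
          (σ (φ n))⁻¹ • ((t' (φ n)).g w - w - σ (φ n) • V' w) := by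
        rw [smul_sub _ _ (σ (φ n) • V' w), smul_smul, inv_mul_cancel₀ hs.ne', one_smul]
      rw [h2, norm_smul, norm_inv, Real.norm_of_nonneg hs.le]
      calc (σ (φ n))⁻¹ * ‖(t' (φ n)).g w - w - σ (φ n) • V' w‖
          ≤ (σ (φ n))⁻¹ * (ε / 2 * σ (φ n)) :=
            mul_le_mul_of_nonneg_left h1 (by positivity)
        _ = ε / 2 := by
            field_simp
        _ < ε := by linarith
    -- right limit
    have l2 : Tendsto (fun n => (σ n)⁻¹ • ((t n).g z - z)) atTop (𝓝 (V z)) := by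
      rw [Metric.tendsto_nhds]
      intro ε hε
      have h0 := (tendsto_one_div_add_atTop_nhds_zero_nat (𝕜 := ℝ)).eventually
        (gt_mem_nhds hε)
      filter_upwards [h0] with n hn
      have h1 := hest n z (hρx hz1)
      have hs := hσ n
      rw [dist_eq_norm]
      have h2 : (σ n)⁻¹ • ((t n).g z - z) - V z =
          (σ n)⁻¹ • ((t n).g z - z - σ n • V z) := by
        rw [smul_sub _ _ (σ n • V z), smul_smul, inv_mul_cancel₀ hs.ne', one_smul]
      rw [h2, norm_smul, norm_inv, Real.norm_of_nonneg hs.le]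
      calc (σ n)⁻¹ * ‖(t n).g z - z - σ n • V z‖
          ≤ (σ n)⁻¹ * (1 / ((n : ℝ) + 1) * σ n) :=
            mul_le_mul_of_nonneg_left h1 (by positivity)
        _ = 1 / ((n : ℝ) + 1) := by
            field_simp
        _ < ε := hn
    have l3 : Tendsto (fun n => (t n).g z - z) atTop (𝓝 0) := by
      have h1 : Tendsto (fun n => B' * σ n) atTop (𝓝 0) := by
        have := hσ0.const_mul B'
        rwa [mul_zero] at this
      exact squeeze_zero_norm (fun n => hdisp n z (hρx hz1)) h1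
    have hdz : DifferentiableAt ℂ h z :=
      (hh z hzd).differentiableAt (isOpen_ball.mem_nhds hzd)
    have l4 := diffQ hdz l3 l2
    have l5 := l4.comp hφ.tendsto_atTop
    refine tendsto_nhds_unique l1 (l5.congr fun n => ?_)
    simp only [Function.comp]
    rw [add_sub_cancel, hwz (φ n) w hw]
  -- identity theorem
  refine ⟨V', hV', fun z hz => ?_⟩
  have hydiff : DifferentiableAt ℂ k y :=
    (hk y (mem_ball_self hd')).differentiableAt (ball_mem_nhds y hd')
  have hhky : DifferentiableAt ℂ h (k y) := (hh (k y) hky).differentiableAt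
    (isOpen_ball.mem_nhds hky)
  have hcompid : (fderiv ℂ h (k y)).comp (fderiv ℂ k y) = ContinuousLinearMap.id ℂ (Cn b) := by
    rw [← fderiv_comp y hhky hydiff]
    have h1 : h ∘ k =ᶠ[𝓝 y] id := by
      filter_upwards [ball_mem_nhds y hd'] with w hw
      exact hhk w hw
    rw [h1.fderiv_eq, fderiv_id]
  have hinj : Function.Injective (fderiv ℂ k y) := by
    intro u v huv
    have h1 := congrArg (fun f : Cn b →L[ℂ] Cn b => f u) hcompid
    have h2 := congrArg (fun f : Cn b →L[ℂ] Cn b => f v) hcompid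
    simp only [ContinuousLinearMap.comp_apply, ContinuousLinearMap.id_apply] at h1 h2
    rw [← h1, ← h2, huv]
  have hsurj : Function.Surjective (fderiv ℂ k y) := by
    have h1 := LinearMap.injective_iff_surjective (f := (fderiv ℂ k y : Cn b →ₗ[ℂ] Cn b))
    exact h1.1 hinj
  have hstrict : HasStrictFDerivAt k (fderiv ℂ k y) y := by
    have h1 : ContDiffAt ℂ ∞ k y := (holo_contDiffOn isOpen_ball hk).contDiffAt
      (ball_mem_nhds y hd')
    exact h1.hasStrictFDerivAt (by simp)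
  have hmapn : map k (𝓝 y) = 𝓝 (k y) := hstrict.map_nhds_eq_of_surj
    (LinearMap.range_eq_top.2 hsurj)
  have hev : ∀ᶠ z in 𝓝 (k y), V' (h z) - fderiv ℂ h z (V z) = 0 := by
    rw [← hmapn, eventually_map]
    filter_upwards [ball_mem_nhds y hd''] with w hw
    rw [hhk w (ball_subset_ball hd''1 hw), hlim w hw, sub_self]
  have hhol : DifferentiableOn ℂ (fun z => V' (h z) - fderiv ℂ h z (V z)) (ball x d) := by
    refine DifferentiableOn.sub (hV'.1.comp hh hhm) ?_
    exact (holo_fderiv isOpen_ball hh).clm_apply (hV.1.mono hxd)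
  exact sub_eq_zero.1 (Pool.Agent.Helper19.Lin.idt (ball x d) isOpen_ball
    (convex_ball x d).isPreconnected _ hhol (k y) hky hev z hz)

end Pool.Agent.Helper62.SP
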