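import Pool.Agent.Helper62.SP.FinvLA
import Pool.Agent.Helper95.Lin.Basics

/-! # Packet SP-FINV -/

open Complex Metric Set Filter Topology MeasureTheory
open scoped ContDiff ComplexConjugate ComplexOrder Manifold Matrix

namespace Pool.Agent.Helper62.SP

open Pool.Agent.Helper95.Lin Pool.Agent.Helper16.Abund Pool.Agent.Helper92.Orb
open Pool.Agent.Helper10.SP

theorem cd_congr {n : ℕ} (l : Fin n) {f g : Cn n → ℂ} {x : Cn n} (h : f =ᶠ[𝓝 x] g) :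
    cd l f x = cd l g x := by
  unfold cd
  rw [h.fderiv_eq]

theorem cdb_congr {n : ℕ} (l : Fin n) {f g : Cn n → ℂ} {x : Cn n} (h : f =ᶠ[𝓝 x] g) :
    cdb l f x = cdb l g x := by
  unfold cdb
  rw [h.fderiv_eq]

theorem cdb_sum {n : ℕ} {W : Set (Cn n)} (hWo : IsOpen W) {ι : Type*}
    (s : Finset ι) (f : ι → Cn n → ℂ) (hf : ∀ j ∈ s, ContDiffOn ℝ ∞ (f j) W) (l : Fin n)
    {x : Cn n} (hx : x ∈ W) :
    cdb l (fun y => ∑ j ∈ s, f j y) x = ∑ j ∈ s, cdb l (f j) x := by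
  classical
  unfold cdb
  have hd : ∀ j ∈ s, DifferentiableAt ℝ (f j) x := fun j hj =>
    ((hf j hj).contDiffAt (hWo.mem_nhds hx)).differentiableAt (by simp)
  rw [fderiv_fun_sum hd]
  simp only [sum_apply, Finset.mul_sum, Finset.sum_add_distrib]

theorem LM_congr {n : ℕ} {Φ Ψ : Cn n → ℝ} {x : Cn n} (h : Φ =ᶠ[𝓝 x] Ψ) : LM Φ x = LM Ψ x := by
  ext j k
  unfold LM
  simp only [Matrix.of_apply]
  refine cd_congr j ?_
  filter_upwards [h.eventuallyEq_nhds] with y hy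
  refine cdb_congr k ?_
  filter_upwards [hy] with z hz
  rw [hz]

theorem LM_add {n : ℕ} (hW : S_WIRT) {W : Set (Cn n)} (hWo : IsOpen W) {Φ Ψ : Cn n → ℝ}
    (h1 : ContDiffOn ℝ ∞ Φ W) (h2 : ContDiffOn ℝ ∞ Ψ W) {x : Cn n} (hx : x ∈ W) :
    LM (fun y => Φ y + Ψ y) x = LM Φ x + LM Ψ x := by
  have c1 : ContDiffOn ℝ ∞ (fun y => (Φ y : ℂ)) W :=
    Complex.ofRealCLM.contDiff.comp_contDiffOn h1
  have c2 : ContDiffOn ℝ ∞ (fun y => (Ψ y : ℂ)) W :=
    Complex.ofRealCLM.contDiff.comp_contDiffOn h2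
  obtain ⟨s1, -, -, -, -, -⟩ := hW W hWo _ _ c1 c2
  obtain ⟨s2, -, -, -, -, -⟩ := hW W hWo _ _ c2 c1
  obtain ⟨-, a1, -, -, -, -⟩ := hW W hWo _ _ c1 c2
  ext j k
  have a2 := (hW W hWo _ _ (s1 k).2 (s2 k).2).2.1 j x hx
  simp only [LM, Matrix.of_apply, Matrix.add_apply]
  rw [← a2.1]
  refine cd_congr j ?_
  filter_upwards [hWo.mem_nhds hx] with y hy
  rw [← (a1 k y hy).2]
  refine cdb_congr k ?_
  filter_upwards with z
  push_cast
  rfl

theorem posSemidef_LM {n : ℕ} (hL : S_LMF) {W : Set (Cn n)} (hWo : IsOpen W) {Φ : Cn n → ℝ}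
    (h1 : ContDiffOn ℝ ∞ Φ W) {x : Cn n} (hx : x ∈ W) (hnn : ∀ e, 0 ≤ lev Φ x e) :
    (LM Φ x).PosSemidef := by
  obtain ⟨-, herm, hlev, -⟩ := hL W hWo Φ h1
  refine Matrix.PosSemidef.of_dotProduct_mulVec_nonneg (herm x hx) fun e => ?_
  have h2 := hlev x hx (cj e)
  have h3 : star e ⬝ᵥ (LM Φ x *ᵥ e) = hermi (LM Φ x) (cj e) (cj e) := by
    unfold hermi
    simp only [dotProduct, Matrix.mulVec, Finset.mul_sum, cj, Complex.conj_conj]
    refine Finset.sum_congr rfl fun a _ => Finset.sum_congr rfl fun b _ => ?_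
    simp only [Pi.star_apply, Complex.star_def]
    ring
  rw [h3, ← h2]
  exact_mod_cast hnn (cj e)

/-- The kernel field of the Levi form is a `KerF`. -/
theorem kerF {n : ℕ} (hL : S_LMF) (hK : S_KV) {W : Set (Cn n)} (hWo : IsOpen W) {Φ : Cn n → ℝ}
    (h1 : ContDiffOn ℝ ∞ Φ W) (h2 : CorankOne Φ W) (i : Fin n) :
    KerF i (LM Φ) (Wi i Φ W) (kv i Φ) := by
  obtain ⟨sm, herm, hlev, clos⟩ := hL W hWo Φ h1
  obtain ⟨-, -, k3, k4⟩ := hK W hWo Φ h1 h2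
  have hsub : Wi i Φ W ⊆ W := fun x hx => hx.1
  exact
    { isOpen := (k3 i).1
      smH := fun j k => (sm j k).mono hsub
      herm := fun x hx => posSemidef_LM hL hWo h1 (hsub hx) (h2 x (hsub hx)).1
      clos := fun x hx => clos x (hsub hx)
      smv := (k3 i).2
      norm := fun x hx => (k4 i x hx).1
      ker := fun x hx => (k4 i x hx).2.1
      only := fun x hx => (k4 i x hx).2.2.1 }

theorem lin_exp {n : ℕ} (L : Cn n →L[ℂ] Cn n) (w : Cn n) (p : Fin n) :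
    L w p = ∑ j, w j * L (Pi.single j 1) p := by
  conv_lhs => rw [pi_eq_sum_univ' w]
  rw [map_sum, Finset.sum_apply]
  refine Finset.sum_congr rfl fun j _ => ?_
  rw [map_smul]
  rfl

/-- The matrix of the derivative. -/
noncomputable def Jm {n : ℕ} (φ : Cn n → Cn n) (y : Cn n) : Matrix (Fin n) (Fin n) ℂ :=
  Matrix.of fun j p => fderiv ℂ φ y (Pi.single j 1) p

theorem det_Jm {n : ℕ} (φ : Cn n → Cn n) (y : Cn n) : (fderiv ℂ φ y).det = (Jm φ y).det := by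
  rw [ContinuousLinearMap.det, ← LinearMap.det_toMatrix', ← Matrix.det_transpose]
  congr 1

theorem Jm_holo {n : ℕ} {φ : Cn n → Cn n} {W' : Set (Cn n)} (hWo' : IsOpen W')
    (hφ : DifferentiableOn ℂ φ W') (j p : Fin n) :
    DifferentiableOn ℂ (fun y => Jm φ y j p) W' := by
  have h1 := holo_fderiv hWo' hφ
  have h2 : DifferentiableOn ℂ (fun y => fderiv ℂ φ y (Pi.single j 1)) W' :=
    h1.clm_apply (differentiableOn_const _)
  exact fun y hy => (differentiableWithinAt_pi.1 (h2 y hy)) p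

theorem Jdet_holo {n : ℕ} {φ : Cn n → Cn n} {W' : Set (Cn n)} (hWo' : IsOpen W')
    (hφ : DifferentiableOn ℂ φ W') : DifferentiableOn ℂ (fun y => (Jm φ y).det) W' := by
  simp only [Matrix.det_apply]
  refine DifferentiableOn.fun_sum fun σ _ => DifferentiableOn.const_smul ?_ _
  exact fun y hy => (HasFDerivWithinAt.finsetProd (g := fun a y => Jm φ y (σ a) a)
    fun a _ => (Jm_holo hWo' hφ (σ a) a y hy).hasFDerivWithinAt).differentiableWithinAt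

section main

variable {n : ℕ} {W W' : Set (Cn n)} {Φ Φ' : Cn n → ℝ} {φ : Cn n → Cn n}

theorem phi'_smooth (hC : S_WCH) (hWo' : IsOpen W')
    (hΦ : ContDiffOn ℝ ∞ Φ W) (hφ : DifferentiableOn ℂ φ W') (hmaps : MapsTo φ W' W)
    (hdet : ∀ x ∈ W', (Jm φ x).det ≠ 0)
    (hΦ' : ∀ x ∈ W', Φ' x = Φ (φ x) + Real.log (‖(Jm φ x).det‖ ^ 2)) :
    ContDiffOn ℝ ∞ Φ' W' := by
  have h1 : ContDiffOn ℝ ∞ (Φ ∘ φ) W' := hΦ.comp (holo_contDiffOn_real hWo' hφ) hmaps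
  have h2 := (hC.2 W' hWo' _ (Jdet_holo hWo' hφ) hdet).1
  exact (h1.add h2).congr fun x hx => hΦ' x hx

theorem LM_phi' (hW : S_WIRT) (hC : S_WCH) (hWo' : IsOpen W')
    (hΦ : ContDiffOn ℝ ∞ Φ W) (hφ : DifferentiableOn ℂ φ W') (hmaps : MapsTo φ W' W)
    (hdet : ∀ x ∈ W', (Jm φ x).det ≠ 0)
    (hΦ' : ∀ x ∈ W', Φ' x = Φ (φ x) + Real.log (‖(Jm φ x).det‖ ^ 2)) {x : Cn n} (hx : x ∈ W') :
    LM Φ' x = LM (Φ ∘ φ) x := by
  have h1 : ContDiffOn ℝ ∞ (Φ ∘ φ) W' := hΦ.comp (holo_contDiffOn_real hWo' hφ) hmaps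
  have h2 := hC.2 W' hWo' _ (Jdet_holo hWo' hφ) hdet
  have h3 : Φ' =ᶠ[𝓝 x] fun y => (Φ ∘ φ) y + Real.log (‖(Jm φ y).det‖ ^ 2) := by
    filter_upwards [hWo'.mem_nhds hx] with y hy
    exact hΦ' y hy
  rw [LM_congr h3, LM_add hW hWo' h1 h2.1 hx, (h2.2 x hx).2.1, add_zero]

theorem LM_comp (hC : S_WCH) (hWo : IsOpen W) (hWo' : IsOpen W')
    (hΦ : ContDiffOn ℝ ∞ Φ W) (hφ : DifferentiableOn ℂ φ W') (hmaps : MapsTo φ W' W)
    {x : Cn n} (hx : x ∈ W') :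
    LM (Φ ∘ φ) x = Jm φ x * LM Φ (φ x) * (Jm φ x)ᴴ := by
  ext j k
  rw [((hC.1 W W' hWo hWo' φ hφ hmaps).2 Φ hΦ x hx).2 j k, Matrix.mul_apply]
  simp only [Matrix.mul_apply, Finset.sum_mul]
  rw [Finset.sum_comm]
  refine Finset.sum_congr rfl fun q _ => Finset.sum_congr rfl fun p _ => ?_
  have : (Jm φ x)ᴴ q k = conj (fderiv ℂ φ x (Pi.single k 1) q) := rfl
  rw [this]
  simp only [Jm, Matrix.of_apply]
  ring

theorem lev_phi' (hW : S_WIRT) (hC : S_WCH) (hL : S_LMF) (hWo : IsOpen W) (hWo' : IsOpen W')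
    (hΦ : ContDiffOn ℝ ∞ Φ W) (hφ : DifferentiableOn ℂ φ W') (hmaps : MapsTo φ W' W)
    (hdet : ∀ x ∈ W', (Jm φ x).det ≠ 0)
    (hΦ' : ∀ x ∈ W', Φ' x = Φ (φ x) + Real.log (‖(Jm φ x).det‖ ^ 2)) {x : Cn n} (hx : x ∈ W')
    (e : Cn n) : lev Φ' x e = lev Φ (φ x) (fderiv ℂ φ x e) := by
  have h1 : ContDiffOn ℝ ∞ (Φ ∘ φ) W' := hΦ.comp (holo_contDiffOn_real hWo' hφ) hmaps
  have h2 := phi'_smooth hC hWo' hΦ hφ hmaps hdet hΦ'
  have h3 := (hL W' hWo' _ h1).2.2.1 x hx e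
  have h4 := (hL W' hWo' _ h2).2.2.1 x hx e
  rw [LM_phi' hW hC hWo' hΦ hφ hmaps hdet hΦ' hx, ← h3] at h4
  have h5 : lev Φ' x e = lev (Φ ∘ φ) x e := by exact_mod_cast h4
  rw [h5, ((hC.1 W W' hWo hWo' φ hφ hmaps).2 Φ hΦ x hx).1 e]

theorem bij (hdet : ∀ x ∈ W', (Jm φ x).det ≠ 0) {x : Cn n} (hx : x ∈ W') :
    Function.Bijective (fderiv ℂ φ x) := by
  have h : LinearMap.det ((fderiv ℂ φ x : Cn n →L[ℂ] Cn n) : Cn n →ₗ[ℂ] Cn n) ≠ 0 := by
    have := hdet x hx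
    rw [← det_Jm] at this
    exact this
  exact (LinearEquiv.bijective (LinearMap.equivOfDetNeZero _ h))

theorem corank_phi' (hW : S_WIRT) (hC : S_WCH) (hL : S_LMF) (hWo : IsOpen W) (hWo' : IsOpen W')
    (hΦ : ContDiffOn ℝ ∞ Φ W) (hcor : CorankOne Φ W) (hφ : DifferentiableOn ℂ φ W')
    (hmaps : MapsTo φ W' W) (hdet : ∀ x ∈ W', (Jm φ x).det ≠ 0)
    (hΦ' : ∀ x ∈ W', Φ' x = Φ (φ x) + Real.log (‖(Jm φ x).det‖ ^ 2)) : CorankOne Φ' W' := by
  intro x hx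
  have hl := lev_phi' hW hC hL hWo hWo' hΦ hφ hmaps hdet hΦ' hx
  obtain ⟨hnn, e₀, he₀, hk⟩ := hcor (φ x) (hmaps hx)
  obtain ⟨hinj, hsur⟩ := bij hdet hx
  obtain ⟨e₁, he₁⟩ := hsur e₀
  refine ⟨fun e => by rw [hl]; exact hnn _, e₁, ?_, fun e => ?_⟩
  · rintro rfl
    rw [map_zero] at he₁
    exact he₀ he₁.symm
  · rw [hl, hk]
    constructor
    · rintro ⟨c, hc⟩
      refine ⟨c, hinj ?_⟩
      rw [hc, map_smul, he₁]
    · rintro ⟨c, rfl⟩
      exact ⟨c, by rw [map_smul, he₁]⟩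

end main

theorem finv (hW : S_WIRT) (hC : S_WCH) (hL : S_LMF) (hK : S_KV) (hD : S_DER) : S_FINV := by
  intro n W W' hWo hWo' Φ hΦ hcor φ hφ hmaps hdet0 Φ' hΦ'0 i i' x hx hφx
  have hdet : ∀ x ∈ W', (Jm φ x).det ≠ 0 := fun y hy => by
    rw [← det_Jm]
    exact hdet0 y hy
  have hΦ' : ∀ x ∈ W', Φ' x = Φ (φ x) + Real.log (‖(Jm φ x).det‖ ^ 2) := fun y hy => by
    rw [← det_Jm]
    exact hΦ'0 y hy
  have φr : ContDiffOn ℝ ∞ φ W' := holo_contDiffOn_real hWo' hφ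
  have hΦs := phi'_smooth hC hWo' hΦ hφ hmaps hdet hΦ'
  have hcor' := corank_phi' hW hC hL hWo hWo' hΦ hcor hφ hmaps hdet hΦ'
  have kf := kerF hL hK hWo hΦ hcor i
  have kf' := kerF hL hK hWo' hΦs hcor' i'
  set v := kv i Φ with hvdef
  set v' := kv i' Φ' with hv'def
  have hsub : Wi i Φ W ⊆ W := fun y hy => hy.1
  have hsub' : Wi i' Φ' W' ⊆ W' := fun y hy => hy.1
  set O : Set (Cn n) := Wi i' Φ' W' ∩ φ ⁻¹' (Wi i Φ W) with hOdef
  have hO : IsOpen O := (φr.continuousOn.mono hsub').isOpen_inter_preimage kf'.isOpen kf.isOpen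
  have hxO : x ∈ O := ⟨hx, hφx⟩
  have hOW : O ⊆ W' := fun y hy => hsub' hy.1
  set c : Cn n → ℂ := fun y => fderiv ℂ φ y (v' y) i with hcdef
  have hcv : ∀ y ∈ O, fderiv ℂ φ y (v' y) = c y • v (φ y) := by
    intro y hy
    have h1 : lev Φ' y (v' y) = 0 :=
      (((hK W' hWo' Φ' hΦs hcor').2.2.2 i' y hy.1).2.2.2 _).2 ⟨1, by rw [one_smul]⟩
    rw [lev_phi' hW hC hL hWo hWo' hΦ hφ hmaps hdet hΦ' (hOW hy)] at h1
    obtain ⟨c0, hc0⟩ := (((hK W hWo Φ hΦ hcor).2.2.2 i (φ y) hy.2).2.2.2 _).1 h1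
    have h2 : c0 = c y := by
      have h3 := congrFun hc0 i
      have h4 : kv i Φ (φ y) i = 1 := kf.norm (φ y) hy.2
      rw [Pi.smul_apply, h4, smul_eq_mul, mul_one] at h3
      exact h3.symm
    rw [hc0, h2]
  have hrel : ∀ y ∈ O, ∀ p, ∑ j, v' y j * Jm φ y j p = c y * v (φ y) p := by
    intro y hy p
    have h1 := congrFun (hcv y hy) p
    rw [lin_exp] at h1
    exact h1
  have hcx : c x ≠ 0 := by
    intro h0
    have h1 := hcv x hxO
    rw [h0, zero_smul] at h1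
    have h2 : v' x = 0 := (bij hdet (hOW hxO)).1 (by rw [h1, map_zero])
    have h3 := kf'.norm x hx
    rw [h2] at h3
    simp at h3
  -- smoothness on `O`
  have sv' : ∀ j, ContDiffOn ℝ ∞ (fun y => v' y j) O := fun j =>
    ((contDiffOn_pi.1 kf'.smv) j).mono fun y hy => hy.1
  have sv : ∀ j, ContDiffOn ℝ ∞ (fun y => v y j) (Wi i Φ W) := fun j =>
    (contDiffOn_pi.1 kf.smv) j
  have sJ : ∀ j p, ContDiffOn ℝ ∞ (fun y => Jm φ y j p) O := fun j p =>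
    (holo_contDiffOn_real hWo' (Jm_holo hWo' hφ j p)).mono hOW
  have smO : MapsTo φ O (Wi i Φ W) := fun y hy => hy.2
  have svφ : ∀ p, ContDiffOn ℝ ∞ ((fun y => v y p) ∘ φ) O := fun p =>
    (sv p).comp (φr.mono hOW) smO
  have sc : ContDiffOn ℝ ∞ c O := by
    have h1 : ContDiffOn ℝ ∞ (fun y => ∑ j, v' y j * Jm φ y j i) O :=
      ContDiffOn.sum fun j _ => (sv' j).mul (sJ j i)
    refine h1.congr fun y _ => ?_
    rw [hcdef]
    exact lin_exp _ _ _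
  have cJ : ∀ j p l, cdb l (fun y => Jm φ y j p) x = 0 := by
    intro j p l
    exact ((hW O hO _ _ (sJ j p) (sJ j p)).2.2.2.2.2.2 ((Jm_holo hWo' hφ j p).mono hOW)) l x hxO
  -- the differentiated relation
  have hT : (Jm φ x)ᵀ * Tm v' x = Matrix.vecMulVec (v (φ x)) (fun l => cdb l c x) +
      c x • (Tm v (φ x) * mc (Jm φ x)ᵀ) := by
    ext p l
    have e1 : cdb l (fun y => ∑ j, v' y j * Jm φ y j p) x =
        cdb l (fun y => c y * ((fun y => v y p) ∘ φ) y) x := by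
      refine cdb_congr l ?_
      filter_upwards [hO.mem_nhds hxO] with y hy
      exact hrel y hy p
    have e2 : cdb l (fun y => ∑ j, v' y j * Jm φ y j p) x =
        ∑ j, Jm φ x j p * cdb l (fun y => v' y j) x := by
      rw [cdb_sum hO Finset.univ (fun j y => v' y j * Jm φ y j p)
        (fun j _ => (sv' j).mul (sJ j p)) l hxO]
      refine Finset.sum_congr rfl fun j _ => ?_
      rw [((hW O hO _ _ (sv' j) (sJ j p)).2.2.1 l x hxO).2, cJ j p l, mul_zero, zero_add]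
    have e3 := ((hW O hO _ _ sc (svφ p)).2.2.1 l x hxO).2
    have e4 := ((hC.1 (Wi i Φ W) O kf.isOpen hO φ (hφ.mono hOW) smO).1 _ (sv p) l x hxO).2
    rw [e2, e3, e4] at e1
    rw [Matrix.mul_apply, Matrix.add_apply, Matrix.vecMulVec_apply, Matrix.smul_apply,
      Matrix.mul_apply, smul_eq_mul]
    have e5 : ∑ j, (Jm φ x)ᵀ p j * Tm v' x j l = ∑ j, Jm φ x j p * cdb l (fun y => v' y j) x :=
      rfl
    rw [e5, e1]
    have e6 : ∑ j, Tm v (φ x) p j * mc (Jm φ x)ᵀ j l =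
        ∑ j, conj (fderiv ℂ φ x (Pi.single l 1) j) * cdb j (fun y => v y p) (φ x) := by
      refine Finset.sum_congr rfl fun j _ => ?_
      rw [mul_comm]
      rfl
    rw [e6]
    simp only [Function.comp]
    ring
  have hJv : (Jm φ x)ᵀ *ᵥ v' x = c x • v (φ x) := by
    ext p
    have := hrel x hxO p
    rw [Pi.smul_apply, smul_eq_mul, ← this]
    simp only [Matrix.mulVec, dotProduct, Matrix.transpose_apply]
    exact Finset.sum_congr rfl fun j _ => mul_comm _ _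
  have hT2 : Tm v (φ x) *ᵥ cj (v (φ x)) = 0 := by
    ext j
    have := (hD i (LM Φ) (Wi i Φ W) v kf (φ x) hφx).2.1 j
    unfold Dvb at this
    rw [Pi.zero_apply, ← this]
    simp only [Matrix.mulVec, dotProduct]
    exact Finset.sum_congr rfl fun k _ => mul_comm _ _
  have hT3 : Tm v' x *ᵥ cj (v' x) = 0 := by
    ext j
    have := (hD i' (LM Φ') (Wi i' Φ' W') v' kf' x hx).2.1 j
    unfold Dvb at this
    rw [Pi.zero_apply, ← this]
    simp only [Matrix.mulVec, dotProduct]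
    exact Finset.sum_congr rfl fun k _ => mul_comm _ _
  have hvne : v (φ x) ≠ 0 := by
    intro h0
    have := kf.norm (φ x) hφx
    rw [h0] at this
    simp at this
  have hq : qf v' x = ((normSq (c x) : ℝ) : ℂ) * qf v (φ x) :=
    tr_lem (Jm φ x)ᵀ (Tm v (φ x)) (Tm v' x) (v (φ x)) (v' x) (fun l => cdb l c x) (c x)
      (by rw [Matrix.det_transpose]; exact hdet x (hOW hxO)) hvne hcx hJv hT2 hT3 hT
  -- cofactors
  have KVx := hK W hWo Φ hΦ hcor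
  have KVx' := hK W' hWo' Φ' hΦs hcor'
  have him := (KVx.2.1 (φ x) (hsub hφx) i).1
  have hre := (KVx.2.1 (φ x) (hsub hφx) i).2
  have him' := (KVx'.2.1 x (hsub' hx) i').1
  have hre' := (KVx'.2.1 x (hsub' hx) i').2
  have hpos : 0 < ((LM Φ (φ x)).adjugate i i).re := by
    refine lt_of_le_of_ne hre fun h0 => hφx.2 ?_
    exact Complex.ext h0.symm him
  have hpos' : 0 < ((LM Φ' x).adjugate i' i').re := by
    refine lt_of_le_of_ne hre' fun h0 => hx.2 ?_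
    exact Complex.ext h0.symm him'
  have hadj := adj_lem i (LM Φ (φ x)) (v (φ x)) ((hL W hWo Φ hΦ).2.1 (φ x) (hsub hφx))
    (kf.norm (φ x) hφx) (kf.ker (φ x) hφx) (kf.only (φ x) hφx) (fun j => by
      rw [hvdef]
      unfold kv
      rw [mul_div_cancel₀]
      exact hφx.2) him
  have hcof := cof_lem i i' (LM Φ (φ x)) (Jm φ x) (v (φ x)) (v' x) (c x) hadj (by
    rw [← Matrix.mulVec_transpose]; exact hJv) (kf'.norm x hx)
  rw [← LM_comp hC hWo hWo' hΦ hφ hmaps (hOW hxO),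
    ← LM_phi' hW hC hWo' hΦ hφ hmaps hdet hΦ' (hOW hxO)] at hcof
  have hcofr : ((LM Φ' x).adjugate i' i').re * normSq (c x) =
      ((LM Φ (φ x)).adjugate i i).re * normSq (Jm φ x).det := by
    have := congrArg Complex.re hcof
    simpa using this
  have hnc : 0 < normSq (c x) := normSq_pos.2 hcx
  have hnd : 0 < normSq (Jm φ x).det := normSq_pos.2 (hdet x (hOW hxO))
  unfold ff laf
  rw [← hvdef, ← hv'def, hq, neg_sub, neg_sub, Real.exp_sub, Real.exp_sub,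
    Real.exp_log hpos, Real.exp_log hpos', hΦ' x (hOW hxO), Real.exp_add, ← Complex.normSq_eq_norm_sq,
    Real.exp_log hnd]
  have hqr : (((normSq (c x) : ℝ) : ℂ) * qf v (φ x)).re = normSq (c x) * (qf v (φ x)).re := by
    simp
  rw [hqr]
  have hexp := Real.exp_pos (Φ (φ x))
  field_simp
  rw [mul_assoc, mul_comm (normSq (c x))]
  linear_combination (qf v (φ x)).re * hcofr

end Pool.Agent.Helper62.SP
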