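import Pool.Agent.Helper10.SP.GoalsT
import Pool.Agent.Helper95.Lin.Basics
import Pool.Agent.Helper62.SP.FINV

/-! # Packet SP-AUT -/

open Complex Metric Set Filter Topology MeasureTheory
open scoped ContDiff ComplexConjugate ComplexOrder Manifold Matrix

namespace Pool.Agent.Helper62.SP

open Pool.Agent.Helper95.Lin Pool.Agent.Helper16.Abund Pool.Agent.Helper92.Orb
open Pool.Agent.Helper10.SP

universe u

/-- The local description of the arrows into `C`. -/
structure LF {n : ℕ} (T : Set (Cn n)) {G : Type u} (R : G → Cn n → Cn n → Prop)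
    (C U : Set (Cn n)) (K : ℕ) (γ : Fin K → G) (τ : Fin K → Cn n → Cn n) : Prop where
  isOpen : IsOpen U
  sub : U ⊆ T
  lar : ∀ k, LAr R (γ k) U (τ k)
  sum : ∀ (E : Type) [AddCommMonoid E] (f : G → Cn n → E), (∀ γ' y, y ∉ C → f γ' y = 0) →
    ∀ x ∈ U, AS R x f = ∑ k, f (γ k) (τ k x)

section

variable {n : ℕ} {T : Set (Cn n)} {G : Type u} [Group G] {R : G → Cn n → Cn n → Prop}

theorem LF_ex (hL : S_LFIN.{u}) (hE : Et T R) {C : Set (Cn n)} (hCT : C ⊆ T)
    (hC : IsCompact C) {x₀ : Cn n} (hx : x₀ ∈ T) : ∃ (U : Set (Cn n)) (K : ℕ) (γ : Fin K → G)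
      (τ : Fin K → Cn n → Cn n), x₀ ∈ U ∧ LF T R C U K γ τ := by
  obtain ⟨U, m, γ, τ, h1, h2, h3, h4, -, -, h7⟩ := hL T R hE C hCT hC x₀ hx
  exact ⟨U, m, γ, τ, h1, h2, h3, fun k => (h4 k).1, h7⟩

omit [Group G] in
theorem arr_of_lar {γ : G} {U : Set (Cn n)} {τ : Cn n → Cn n} (h : LAr R γ U τ) : Arr R U τ :=
  ⟨h.1, h.2.1, γ, h.2.2⟩

theorem aJ_eq (hA : S_ARRB.{u}) (hE : Et T R) {γ : G} {U : Set (Cn n)} {τ : Cn n → Cn n}
    (h : LAr R γ U τ) {x : Cn n} (hx : x ∈ U) : aJ R γ x (τ x) = (Jm τ x).det := by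
  rw [((hA T R hE).2.1 γ U τ h x hx).2, det_Jm]

theorem aut_eq (hA : S_ARRB.{u}) (hE : Et T R) {C U : Set (Cn n)} {K : ℕ} {γ : Fin K → G}
    {τ : Fin K → Cn n → Cn n} (h : LF T R C U K γ τ) (m : ℕ) {η : Cn n → ℂ}
    (hη : ∀ x ∉ C, η x = 0) {x : Cn n} (hx : x ∈ U) :
    aut R m η x = ∑ k, η (τ k x) * (Jm (τ k) x).det ^ m := by
  unfold aut
  rw [h.sum ℂ (fun γ y => η y * aJ R γ x y ^ m) (fun γ' y hy => by simp [hη y hy]) x hx]
  refine Finset.sum_congr rfl fun k _ => ?_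
  rw [aJ_eq hA hE (h.lar k) hx]

theorem AS_one (hL : S_LFIN.{u}) (hE : Et T R) {κ : Cn n → ℝ} (hκ : IsPUE T R κ) {x : Cn n}
    (hx : x ∈ T) : AS R x (fun _ y => (κ y : ℂ)) = 1 := by
  obtain ⟨U, K, γ, τ, hxU, h⟩ := LF_ex hL hE hκ.test.2.2 hκ.test.2.1 hx
  have h0 : ∀ y ∉ tsupport κ, κ y = 0 := fun y hy => image_eq_zero_of_notMem_tsupport hy
  have h1 := hκ.sum x hx
  rw [h.sum ℝ (fun _ y => κ y) (fun _ y hy => h0 y hy) x hxU] at h1
  rw [h.sum ℂ (fun _ y => (κ y : ℂ)) (fun _ y hy => by rw [h0 y hy]; simp) x hxU]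
  exact_mod_cast h1

theorem intC {T C : Set (Cn n)} (hCT : C ⊆ T) (hC : IsCompact C) {f : Cn n → ℂ}
    (hf : ContinuousOn f T) (h0 : ∀ x ∉ C, f x = 0) : Integrable f := by
  have h1 : IntegrableOn f C := (hf.mono hCT).integrableOn_compact hC
  refine (integrableOn_iff_integrable_of_support_subset fun x hx => ?_).1 h1
  by_contra hcon
  exact hx (h0 x hcon)

theorem Jdet_smooth {U : Set (Cn n)} {τ : Cn n → Cn n} (hU : IsOpen U)
    (hτ : DifferentiableOn ℂ τ U) (m : ℕ) :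
    ContDiffOn ℝ ∞ (fun y => (Jm τ y).det ^ m) U :=
  holo_contDiffOn_real hU ((Jdet_holo hU hτ).pow m)

/-- Unfolding. -/
theorem unfoldL (hL : S_LFIN.{u}) (hS : S_SWAP.{u}) (hD : S_DETI.{u})
    {H : Cn n → Matrix (Fin n) (Fin n) ℂ} (hK : KEt T R H) {κ : Cn n → ℝ} (hκ : IsPUE T R κ)
    {C : Set (Cn n)} (hCT : C ⊆ T) (hC : IsCompact C) {F : Cn n → ℂ} (hF : ContinuousOn F T)
    (hF0 : ∀ x ∉ C, F x = 0) :
    IntegrableOn (fun x => (κ x : ℂ) * AS R x (fun _ y => F y) * ((H x).det.re : ℂ)) T ∧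
    ∫ x in T, (κ x : ℂ) * AS R x (fun _ y => F y) * ((H x).det.re : ℂ) =
      ∫ x in T, F x * ((H x).det.re : ℂ) := by
  obtain ⟨-, h2, -, -, h5, -⟩ := hD T R H hK
  have hκ0 : ∀ y ∉ tsupport κ, (κ y : ℂ) = 0 := fun y hy => by
    rw [image_eq_zero_of_notMem_tsupport hy]
    simp
  obtain ⟨-, i2, i3⟩ := hS T R hK.et (fun x => (H x).det.re) h2.continuousOn
    (fun U τ hτ x hx => (h5 U τ hτ x hx).1) C hCT hC (tsupport κ) hκ.test.2.2 hκ.test.2.1 F
    (fun x => (κ x : ℂ)) (intC hCT hC hF hF0) hF0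
    (Complex.continuous_ofReal.comp hκ.test.1.continuous) hκ0
  refine ⟨i2, ?_⟩
  rw [← i3]
  refine setIntegral_congr_fun hK.et.isOpen.measurableSet fun x hx => ?_
  rw [AS_one hL hK.et hκ hx, mul_one]

theorem wfac (hD : S_DETI.{u}) {H : Cn n → Matrix (Fin n) (Fin n) ℂ} (hK : KEt T R H) {m : ℕ}
    {W : Cn n → ℝ} (hW : Wt T R m W) {U : Set (Cn n)} {τ : Cn n → Cn n} (hτ : Arr R U τ)
    {x : Cn n} (hx : x ∈ U) :
    W x * ‖(Jm τ x).det ^ m‖ ^ 2 = (H x).det.re * (W (τ x) / (H (τ x)).det.re) := by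
  obtain ⟨h1, -, -, -, h5, -⟩ := hD T R H hK
  obtain ⟨γ, hγ⟩ := hτ.2.2
  have hy : τ x ∈ T := (hK.et.mem γ x (τ x) (hγ x hx)).2
  have h6 := (h5 U τ hτ x hx).1
  have h7 := hW.inv U τ hτ x hx
  have h8 := (h1 (τ x) hy).2.1
  rw [det_Jm] at h6 h7
  rw [norm_pow, ← pow_mul, mul_comm m 2, ← h7, h6]
  field_simp

theorem wfacC (hD : S_DETI.{u}) {H : Cn n → Matrix (Fin n) (Fin n) ℂ} (hK : KEt T R H) {m : ℕ}
    {W : Cn n → ℝ} (hW : Wt T R m W) {U : Set (Cn n)} {τ : Cn n → Cn n} (hτ : Arr R U τ)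
    {x : Cn n} (hx : x ∈ U) :
    (W x : ℂ) * ((Jm τ x).det ^ m * conj ((Jm τ x).det ^ m)) =
      ((H x).det.re : ℂ) * ((W (τ x) : ℂ) / ((H (τ x)).det.re : ℂ)) := by
  rw [Complex.mul_conj, Complex.normSq_eq_norm_sq]
  exact_mod_cast wfac hD hK hW hτ hx

omit [Group G] in
theorem sec_eq {m : ℕ} {s : Cn n → ℂ} (hs : Sec T R m s) {U : Set (Cn n)} {τ : Cn n → Cn n}
    (hτ : Arr R U τ) {x : Cn n} (hx : x ∈ U) : s x = s (τ x) * (Jm τ x).det ^ m := by
  rw [← det_Jm]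
  exact hs.2 U τ hτ x hx

/-- The automorphic sum is a section. -/
theorem sec_aut (hA : S_ARRB.{u}) (hL : S_LFIN.{u}) (hI : S_ASI.{u}) (hE : Et T R) (m : ℕ)
    {C : Set (Cn n)} (hCT : C ⊆ T) (hC : IsCompact C) {η : Cn n → ℂ} (hηs : ContDiff ℝ ∞ η)
    (hη : ∀ x ∉ C, η x = 0) : Sec T R m (aut R m η) := by
  constructor
  · intro x hx
    obtain ⟨U, K, γ, τ, hxU, h⟩ := LF_ex hL hE hCT hC hx
    have h1 : ContDiffOn ℝ ∞ (fun x => ∑ k, η (τ k x) * (Jm (τ k) x).det ^ m) U := by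
      refine ContDiffOn.sum fun k _ => ?_
      exact (hηs.comp_contDiffOn (holo_contDiffOn_real h.isOpen (h.lar k).2.1)).mul
        (Jdet_smooth h.isOpen (h.lar k).2.1 m)
    have h2 : aut R m η =ᶠ[𝓝 x] fun x => ∑ k, η (τ k x) * (Jm (τ k) x).det ^ m := by
      filter_upwards [h.isOpen.mem_nhds hxU] with y hy
      exact aut_eq hA hE h m hη hy
    exact ((h1.contDiffAt (h.isOpen.mem_nhds hxU)).congr_of_eventuallyEq h2).contDiffWithinAt
  · intro V σ hσ x hx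
    obtain ⟨γ₀, hγ₀⟩ := hσ.2.2
    have hR := hγ₀ x hx
    have hxT := (hE.mem _ _ _ hR).1
    obtain ⟨U, K, γ, τ, hxU, h⟩ := LF_ex hL hE hCT hC hxT
    have hJ : aJ R γ₀ x (σ x) = (fderiv ℂ σ x).det :=
      ((hA T R hE).2.1 γ₀ V σ ⟨hσ.1, hσ.2.1, hγ₀⟩ x hx).2
    unfold aut
    rw [hI T R hE ℂ _ γ₀ x (σ x) hR,
      h.sum ℂ (fun γ y => η y * aJ R γ x y ^ m) (fun γ' y hy => by simp [hη y hy]) x hxU,
      h.sum ℂ (fun γ y => η y * aJ R (γ * γ₀⁻¹) (σ x) y ^ m)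
        (fun γ' y hy => by simp [hη y hy]) x hxU, Finset.sum_mul]
    refine Finset.sum_congr rfl fun k _ => ?_
    have h3 : R (γ k) x (τ k x) := (h.lar k).2.2 x hxU
    have h4 : R (γ k * γ₀⁻¹) (σ x) (τ k x) := hE.mul _ _ _ _ _ (hE.inv _ _ _ hR) h3
    have h5 := (hA T R hE).2.2.2.1.2.2 γ₀ (γ k * γ₀⁻¹) x (σ x) (τ k x) hR h4
    rw [inv_mul_cancel_right] at h5
    rw [h5, hJ, mul_pow]
    ring

/-! ### Derivatives -/

theorem cdb_arr (hWI : S_WIRT) (hC : S_WCH) {T U : Set (Cn n)} (hT : IsOpen T) (hU : IsOpen U)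
    {τ : Cn n → Cn n} (hτ : DifferentiableOn ℂ τ U) (hm : MapsTo τ U T) {f : Cn n → ℂ}
    (hf : ContDiffOn ℝ ∞ f T) (m : ℕ) {x : Cn n} (hx : x ∈ U) (j : Fin n) :
    cdb j (fun y => f (τ y) * (Jm τ y).det ^ m) x =
      (∑ p, conj (fderiv ℂ τ x (Pi.single j 1) p) * cdb p f (τ x)) * (Jm τ x).det ^ m := by
  have h1 : ContDiffOn ℝ ∞ (f ∘ τ) U := hf.comp (holo_contDiffOn_real hU hτ) hm
  have h2 := Jdet_smooth hU hτ m
  have h3 := ((hWI U hU _ _ h1 h2).2.2.1 j x hx).2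
  have h4 : cdb j (fun y => (Jm τ y).det ^ m) x = 0 :=
    (hWI U hU _ _ h2 h2).2.2.2.2.2.2 ((Jdet_holo hU hτ).pow m) j x hx
  have h5 := ((hC.1 T U hT hU τ hτ hm).1 f hf j x hx).2
  have h6 : cdb j (fun y => f (τ y) * (Jm τ y).det ^ m) x =
      cdb j (fun y => (f ∘ τ) y * (Jm τ y).det ^ m) x := rfl
  rw [h6, h3, h4, h5]
  ring

/-- The conjugate differential applied to a vector. -/
noncomputable def cD (τ : Cn n → Cn n) (x : Cn n) (a : Cn n) : Cn n :=
  fun j => ∑ p, conj (fderiv ℂ τ x (Pi.single j 1) p) * a p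

theorem hermi_nat (hD : S_DETI.{u}) {H : Cn n → Matrix (Fin n) (Fin n) ℂ} (hK : KEt T R H)
    {U : Set (Cn n)} {τ : Cn n → Cn n} (hτ : Arr R U τ) {x : Cn n} (hx : x ∈ U) (a b : Cn n) :
    hermi (H x)⁻¹ (cD τ x a) (cD τ x b) = hermi (H (τ x))⁻¹ a b := by
  obtain ⟨-, -, -, -, h5, -⟩ := hD T R H hK
  have h6 := (h5 U τ hτ x hx).2
  have h7 : hermi (H (τ x))⁻¹ a b = ∑ j, ∑ k, ∑ p, ∑ q,
      conj (fderiv ℂ τ x (Pi.single p 1) j) * (H x)⁻¹ p q *
        fderiv ℂ τ x (Pi.single q 1) k * a j * conj (b k) := by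
    unfold hermi
    refine Finset.sum_congr rfl fun j _ => Finset.sum_congr rfl fun k _ => ?_
    rw [h6 j k, Finset.sum_mul, Finset.sum_mul]
    refine Finset.sum_congr rfl fun p _ => ?_
    rw [Finset.sum_mul, Finset.sum_mul]
  have h8 : hermi (H x)⁻¹ (cD τ x a) (cD τ x b) = ∑ p, ∑ q, ∑ j, ∑ k,
      conj (fderiv ℂ τ x (Pi.single p 1) j) * (H x)⁻¹ p q *
        fderiv ℂ τ x (Pi.single q 1) k * a j * conj (b k) := by
    unfold hermi cD
    refine Finset.sum_congr rfl fun p _ => Finset.sum_congr rfl fun q _ => ?_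
    rw [Finset.mul_sum, Finset.sum_mul]
    refine Finset.sum_congr rfl fun j _ => ?_
    rw [map_sum, Finset.mul_sum]
    refine Finset.sum_congr rfl fun k _ => ?_
    rw [map_mul, Complex.conj_conj]
    ring
  rw [h7, h8]
  calc _ = ∑ p, ∑ j, ∑ q, ∑ k, conj (fderiv ℂ τ x (Pi.single p 1) j) * (H x)⁻¹ p q *
        fderiv ℂ τ x (Pi.single q 1) k * a j * conj (b k) :=
        Finset.sum_congr rfl fun p _ => Finset.sum_comm
    _ = ∑ j, ∑ p, ∑ q, ∑ k, conj (fderiv ℂ τ x (Pi.single p 1) j) * (H x)⁻¹ p q *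
        fderiv ℂ τ x (Pi.single q 1) k * a j * conj (b k) := Finset.sum_comm
    _ = ∑ j, ∑ p, ∑ k, ∑ q, conj (fderiv ℂ τ x (Pi.single p 1) j) * (H x)⁻¹ p q *
        fderiv ℂ τ x (Pi.single q 1) k * a j * conj (b k) :=
        Finset.sum_congr rfl fun j _ => Finset.sum_congr rfl fun p _ => Finset.sum_comm
    _ = ∑ j, ∑ k, ∑ p, ∑ q, conj (fderiv ℂ τ x (Pi.single p 1) j) * (H x)⁻¹ p q *
        fderiv ℂ τ x (Pi.single q 1) k * a j * conj (b k) :=
        Finset.sum_congr rfl fun j _ => Finset.sum_comm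

theorem hermi_sum_left {ι : Type*} (s : Finset ι) (K : Matrix (Fin n) (Fin n) ℂ)
    (a : ι → Cn n) (b : Cn n) : hermi K (∑ l ∈ s, a l) b = ∑ l ∈ s, hermi K (a l) b := by
  unfold hermi
  symm
  rw [Finset.sum_comm]
  refine Finset.sum_congr rfl fun j _ => ?_
  rw [Finset.sum_comm]
  refine Finset.sum_congr rfl fun k _ => ?_
  rw [Finset.sum_apply, Finset.mul_sum, Finset.sum_mul]

theorem hermi_sum_right {ι : Type*} (s : Finset ι) (K : Matrix (Fin n) (Fin n) ℂ)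
    (a : Cn n) (b : ι → Cn n) : hermi K a (∑ l ∈ s, b l) = ∑ l ∈ s, hermi K a (b l) := by
  unfold hermi
  symm
  rw [Finset.sum_comm]
  refine Finset.sum_congr rfl fun j _ => ?_
  rw [Finset.sum_comm]
  refine Finset.sum_congr rfl fun k _ => ?_
  rw [Finset.sum_apply, map_sum, Finset.mul_sum]

theorem hermi_smul (K : Matrix (Fin n) (Fin n) ℂ) (c d : ℂ) (a b : Cn n) :
    hermi K (c • a) (d • b) = c * conj d * hermi K a b := by
  unfold hermi
  rw [Finset.mul_sum]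
  refine Finset.sum_congr rfl fun j _ => ?_
  rw [Finset.mul_sum]
  refine Finset.sum_congr rfl fun k _ => ?_
  rw [Pi.smul_apply, Pi.smul_apply, smul_eq_mul, smul_eq_mul, map_mul]
  ring

theorem hermi_sub_left (K : Matrix (Fin n) (Fin n) ℂ) (a a' b : Cn n) :
    hermi K (a - a') b = hermi K a b - hermi K a' b := by
  unfold hermi
  rw [← Finset.sum_sub_distrib]
  refine Finset.sum_congr rfl fun j _ => ?_
  rw [← Finset.sum_sub_distrib]
  refine Finset.sum_congr rfl fun k _ => ?_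
  rw [Pi.sub_apply]
  ring

theorem hermi_sub_right (K : Matrix (Fin n) (Fin n) ℂ) (a b b' : Cn n) :
    hermi K a (b - b') = hermi K a b - hermi K a b' := by
  unfold hermi
  rw [← Finset.sum_sub_distrib]
  refine Finset.sum_congr rfl fun j _ => ?_
  rw [← Finset.sum_sub_distrib]
  refine Finset.sum_congr rfl fun k _ => ?_
  rw [Pi.sub_apply, map_sub]
  ring

theorem hermi_nonneg {K : Matrix (Fin n) (Fin n) ℂ} (hK : K.PosSemidef) (a : Cn n) :
    0 ≤ (hermi K a a).re := by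
  have h1 := hK.dotProduct_mulVec_nonneg (cj a)
  have h2 : star (cj a) ⬝ᵥ (K *ᵥ cj a) = hermi K a a := by
    unfold hermi
    simp only [dotProduct, Matrix.mulVec, Finset.mul_sum, cj]
    refine Finset.sum_congr rfl fun p _ => Finset.sum_congr rfl fun q _ => ?_
    simp only [Pi.star_apply, Complex.star_def, cj, Complex.conj_conj]
    ring
  rw [h2] at h1
  exact (Complex.le_def.1 h1).1

/-- Cauchy-Schwarz for a finite sum. -/
theorem hermi_cs {K : Matrix (Fin n) (Fin n) ℂ} (hK : K.PosSemidef) {N : ℕ}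
    (a : Fin N → Cn n) : (hermi K (∑ l, a l) (∑ l, a l)).re ≤ N * ∑ l, (hermi K (a l) (a l)).re := by
  have h1 : 0 ≤ ∑ l : Fin N, ∑ l' : Fin N, (hermi K (a l - a l') (a l - a l')).re :=
    Finset.sum_nonneg fun l _ => Finset.sum_nonneg fun l' _ => hermi_nonneg hK _
  have h2 : ∑ l : Fin N, ∑ l' : Fin N, (hermi K (a l - a l') (a l - a l')).re =
      2 * (N * ∑ l, (hermi K (a l) (a l)).re) - 2 * (hermi K (∑ l, a l) (∑ l, a l)).re := by
    have e1 : ∀ l l', (hermi K (a l - a l') (a l - a l')).re = (hermi K (a l) (a l)).re -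
        (hermi K (a l) (a l')).re - (hermi K (a l') (a l)).re + (hermi K (a l') (a l')).re := by
      intro l l'
      rw [hermi_sub_left, hermi_sub_right, hermi_sub_right]
      simp only [Complex.sub_re]
      ring
    have e2 : (hermi K (∑ l, a l) (∑ l, a l)).re = ∑ l, ∑ l', (hermi K (a l) (a l')).re := by
      rw [hermi_sum_left, Complex.re_sum]
      refine Finset.sum_congr rfl fun l _ => ?_
      rw [hermi_sum_right, Complex.re_sum]
    have e3 : (hermi K (∑ l, a l) (∑ l, a l)).re = ∑ l, ∑ l', (hermi K (a l') (a l)).re := by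
      rw [e2, Finset.sum_comm]
    simp only [e1, Finset.sum_add_distrib, Finset.sum_sub_distrib, Finset.sum_const,
      Finset.card_univ, Fintype.card_fin, nsmul_eq_mul]
    rw [← Finset.mul_sum, ← e2, ← e3]
    ring
  linarith

/-! ### Pointwise identities -/

theorem dbp_eq (H : Cn n → Matrix (Fin n) (Fin n) ℂ) (s t : Cn n → ℂ) (x : Cn n) :
    dbp H s t x = hermi (H x)⁻¹ (fun j => cdb j s x) (fun k => cdb k t x) := rfl

theorem cdb_zero {C : Set (Cn n)} (hC : IsClosed C) {η : Cn n → ℂ} (hη : ∀ x ∉ C, η x = 0)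
    {x : Cn n} (hx : x ∉ C) (j : Fin n) : cdb j η x = 0 := by
  have h1 : η =ᶠ[𝓝 x] fun _ => 0 := by
    filter_upwards [hC.isOpen_compl.mem_nhds hx] with y hy
    exact hη y hy
  rw [cdb_congr j h1]
  unfold cdb
  simp

theorem dbp_zero {C : Set (Cn n)} (hC : IsClosed C) {η : Cn n → ℂ} (hη : ∀ x ∉ C, η x = 0)
    (H : Cn n → Matrix (Fin n) (Fin n) ℂ) (s : Cn n → ℂ) {x : Cn n} (hx : x ∉ C) :
    dbp H s η x = 0 := by
  unfold dbp
  simp [cdb_zero hC hη hx]

theorem ptw_ip (hA : S_ARRB.{u}) (hL : S_LFIN.{u}) (hD : S_DETI.{u})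
    {H : Cn n → Matrix (Fin n) (Fin n) ℂ} (hK : KEt T R H) {m : ℕ} {W : Cn n → ℝ}
    (hW : Wt T R m W) {C : Set (Cn n)} (hCT : C ⊆ T) (hC : IsCompact C) {η : Cn n → ℂ}
    (hη : ∀ x ∉ C, η x = 0) {s : Cn n → ℂ} (hs : Sec T R m s) {x : Cn n} (hx : x ∈ T) :
    (W x : ℂ) * (s x * conj (aut R m η x)) = ((H x).det.re : ℂ) *
      AS R x (fun _ y => (W y : ℂ) * (s y * conj (η y)) / ((H y).det.re : ℂ)) := by
  obtain ⟨U, K, γ, τ, hxU, h⟩ := LF_ex hL hK.et hCT hC hx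
  rw [aut_eq hA hK.et h m hη hxU, h.sum ℂ _ (fun _ y hy => by simp [hη y hy]) x hxU, map_sum,
    Finset.mul_sum, Finset.mul_sum, Finset.mul_sum]
  refine Finset.sum_congr rfl fun k _ => ?_
  have h1 := wfacC hD hK hW (arr_of_lar (h.lar k)) hxU
  have h2 := sec_eq hs (arr_of_lar (h.lar k)) hxU
  rw [map_mul, h2]
  linear_combination (s (τ k x) * conj (η (τ k x))) * h1

theorem cdb_aut (hWI : S_WIRT) (hCH : S_WCH) (hA : S_ARRB.{u}) (hE : Et T R)
    {C U : Set (Cn n)} {K : ℕ} {γ : Fin K → G} {τ : Fin K → Cn n → Cn n}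
    (h : LF T R C U K γ τ) (m : ℕ) {η : Cn n → ℂ} (hηs : ContDiff ℝ ∞ η)
    (hη : ∀ x ∉ C, η x = 0) {x : Cn n} (hx : x ∈ U) :
    (fun j => cdb j (aut R m η) x) =
      ∑ k, (Jm (τ k) x).det ^ m • cD (τ k) x (fun p => cdb p η (τ k x)) := by
  funext j
  have h1 : aut R m η =ᶠ[𝓝 x] fun x => ∑ k, η (τ k x) * (Jm (τ k) x).det ^ m := by
    filter_upwards [h.isOpen.mem_nhds hx] with y hy
    exact aut_eq hA hE h m hη hy
  rw [cdb_congr j h1, cdb_sum h.isOpen Finset.univ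
    (fun k x => η (τ k x) * (Jm (τ k) x).det ^ m) (fun k _ =>
      (hηs.comp_contDiffOn (holo_contDiffOn_real h.isOpen (h.lar k).2.1)).mul
        (Jdet_smooth h.isOpen (h.lar k).2.1 m)) j hx, Finset.sum_apply]
  refine Finset.sum_congr rfl fun k _ => ?_
  rw [cdb_arr hWI hCH isOpen_univ h.isOpen (h.lar k).2.1 (mapsTo_univ _ _) hηs.contDiffOn m hx j,
    Pi.smul_apply, smul_eq_mul, mul_comm]
  rfl

theorem cdb_sec (hWI : S_WIRT) (hCH : S_WCH) (hE : Et T R) {m : ℕ} {s : Cn n → ℂ}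
    (hs : Sec T R m s) {γ : G} {U : Set (Cn n)} {τ : Cn n → Cn n} (hτ : LAr R γ U τ)
    {x : Cn n} (hx : x ∈ U) :
    (fun j => cdb j s x) = (Jm τ x).det ^ m • cD τ x (fun p => cdb p s (τ x)) := by
  funext j
  have h1 : s =ᶠ[𝓝 x] fun x => s (τ x) * (Jm τ x).det ^ m := by
    filter_upwards [hτ.1.mem_nhds hx] with y hy
    exact sec_eq hs (arr_of_lar hτ) hy
  rw [cdb_congr j h1, cdb_arr hWI hCH hE.isOpen hτ.1 hτ.2.1
    (fun y hy => (hE.mem _ _ _ (hτ.2.2 y hy)).2) hs.1 m hx j,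
    Pi.smul_apply, smul_eq_mul, mul_comm]
  rfl

theorem ptw_dp (hWI : S_WIRT) (hCH : S_WCH) (hA : S_ARRB.{u}) (hL : S_LFIN.{u})
    (hD : S_DETI.{u}) {H : Cn n → Matrix (Fin n) (Fin n) ℂ} (hK : KEt T R H) {m : ℕ}
    {W : Cn n → ℝ} (hW : Wt T R m W) {C : Set (Cn n)} (hCT : C ⊆ T) (hC : IsCompact C)
    {η : Cn n → ℂ} (hηs : ContDiff ℝ ∞ η) (hη : ∀ x ∉ C, η x = 0) {s : Cn n → ℂ}
    (hs : Sec T R m s) {x : Cn n} (hx : x ∈ T) :
    (W x : ℂ) * dbp H s (aut R m η) x = ((H x).det.re : ℂ) *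
      AS R x (fun _ y => (W y : ℂ) * dbp H s η y / ((H y).det.re : ℂ)) := by
  obtain ⟨U, K, γ, τ, hxU, h⟩ := LF_ex hL hK.et hCT hC hx
  rw [dbp_eq, cdb_aut hWI hCH hA hK.et h m hηs hη hxU, hermi_sum_right,
    h.sum ℂ _ (fun _ y hy => by simp [dbp_zero hC.isClosed hη H s hy]) x hxU,
    Finset.mul_sum, Finset.mul_sum]
  refine Finset.sum_congr rfl fun k _ => ?_
  have h1 := wfacC hD hK hW (arr_of_lar (h.lar k)) hxU
  rw [cdb_sec hWI hCH hK.et hs (h.lar k) hxU, hermi_smul,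
    hermi_nat hD hK (arr_of_lar (h.lar k)) hxU, dbp_eq]
  linear_combination (hermi (H (τ k x))⁻¹ (fun j => cdb j s (τ k x))
    (fun j => cdb j η (τ k x))) * h1

theorem ptw_ns (hA : S_ARRB.{u}) (hD : S_DETI.{u})
    {H : Cn n → Matrix (Fin n) (Fin n) ℂ} (hK : KEt T R H) {m : ℕ} {W : Cn n → ℝ}
    (hW : Wt T R m W) {C U : Set (Cn n)} {K : ℕ} {γ : Fin K → G} {τ : Fin K → Cn n → Cn n}
    (h : LF T R C U K γ τ) {N : ℕ} (hN : K ≤ N) {η : Cn n → ℂ}
    (hη : ∀ x ∉ C, η x = 0) {x : Cn n} (hx : x ∈ U) :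
    W x * ‖aut R m η x‖ ^ 2 ≤ N * ((H x).det.re *
      (AS R x (fun _ y => ((W y * ‖η y‖ ^ 2 / (H y).det.re : ℝ) : ℂ))).re) := by
  rw [aut_eq hA hK.et h m hη hx, h.sum ℂ _ (fun _ y hy => by simp [hη y hy]) x hx,
    Complex.re_sum]
  simp only [Complex.ofReal_re]
  have hWx := (hW.pos x (h.sub hx)).le
  have h1 : ‖∑ k, η (τ k x) * (Jm (τ k) x).det ^ m‖ ^ 2 ≤
      K * ∑ k, ‖η (τ k x)‖ ^ 2 * ‖(Jm (τ k) x).det ^ m‖ ^ 2 := by
    have h2 : ‖∑ k, η (τ k x) * (Jm (τ k) x).det ^ m‖ ≤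
        ∑ k, ‖η (τ k x) * (Jm (τ k) x).det ^ m‖ := norm_sum_le _ _
    have h3 := sq_sum_le_card_mul_sum_sq (s := (Finset.univ : Finset (Fin K)))
      (f := fun k => ‖η (τ k x) * (Jm (τ k) x).det ^ m‖)
    rw [Finset.card_univ, Fintype.card_fin] at h3
    calc _ ≤ (∑ k, ‖η (τ k x) * (Jm (τ k) x).det ^ m‖) ^ 2 :=
          pow_le_pow_left₀ (norm_nonneg _) h2 2
      _ ≤ _ := h3
      _ = _ := by
          congr 1
          refine Finset.sum_congr rfl fun k _ => ?_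
          rw [norm_mul, mul_pow]
  have h4 : W x * ∑ k, ‖η (τ k x)‖ ^ 2 * ‖(Jm (τ k) x).det ^ m‖ ^ 2 =
      (H x).det.re * ∑ k, W (τ k x) * ‖η (τ k x)‖ ^ 2 / (H (τ k x)).det.re := by
    rw [Finset.mul_sum, Finset.mul_sum]
    refine Finset.sum_congr rfl fun k _ => ?_
    have h5 := wfac hD hK hW (arr_of_lar (h.lar k)) hx
    linear_combination ‖η (τ k x)‖ ^ 2 * h5
  rw [← h4]
  have h6 : 0 ≤ W x * ∑ k, ‖η (τ k x)‖ ^ 2 * ‖(Jm (τ k) x).det ^ m‖ ^ 2 :=
    mul_nonneg hWx (Finset.sum_nonneg fun k _ => by positivity)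
  have hKN : (K : ℝ) ≤ N := by exact_mod_cast hN
  calc W x * ‖∑ k, η (τ k x) * (Jm (τ k) x).det ^ m‖ ^ 2
      ≤ W x * (K * ∑ k, ‖η (τ k x)‖ ^ 2 * ‖(Jm (τ k) x).det ^ m‖ ^ 2) :=
        mul_le_mul_of_nonneg_left h1 hWx
    _ = K * (W x * ∑ k, ‖η (τ k x)‖ ^ 2 * ‖(Jm (τ k) x).det ^ m‖ ^ 2) := by ring
    _ ≤ _ := mul_le_mul_of_nonneg_right hKN h6

theorem ptw_nd (hWI : S_WIRT) (hCH : S_WCH) (hA : S_ARRB.{u}) (hD : S_DETI.{u})
    {H : Cn n → Matrix (Fin n) (Fin n) ℂ} (hK : KEt T R H) {m : ℕ} {W : Cn n → ℝ}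
    (hW : Wt T R m W) {C U : Set (Cn n)} (hC : IsCompact C) {K : ℕ} {γ : Fin K → G}
    {τ : Fin K → Cn n → Cn n} (h : LF T R C U K γ τ) {N : ℕ} (hN : K ≤ N) {η : Cn n → ℂ}
    (hηs : ContDiff ℝ ∞ η) (hη : ∀ x ∉ C, η x = 0) {x : Cn n} (hx : x ∈ U) :
    0 ≤ W x * (dbp H (aut R m η) (aut R m η) x).re ∧
    W x * (dbp H (aut R m η) (aut R m η) x).re ≤ N * ((H x).det.re *
      (AS R x (fun _ y => (W y : ℂ) * dbp H η η y / ((H y).det.re : ℂ))).re) := by
  have hpd : (H x)⁻¹.PosSemidef := ((hD T R H hK).1 x (h.sub hx)).2.2.1.posSemidef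
  have hWx := (hW.pos x (h.sub hx)).le
  refine ⟨mul_nonneg hWx (hermi_nonneg hpd _), ?_⟩
  rw [dbp_eq, cdb_aut hWI hCH hA hK.et h m hηs hη hx,
    h.sum ℂ _ (fun _ y hy => by simp [dbp_zero hC.isClosed hη H η hy]) x hx]
  set v : Fin K → Cn n := fun k => (Jm (τ k) x).det ^ m • cD (τ k) x (fun p => cdb p η (τ k x))
    with hv
  have h1 := hermi_cs hpd v
  have h2 : W x * ∑ k, (hermi (H x)⁻¹ (v k) (v k)).re = (H x).det.re *
      (∑ k, (W (τ k x) : ℂ) * dbp H η η (τ k x) / ((H (τ k x)).det.re : ℂ)).re := by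
    rw [Complex.re_sum, Finset.mul_sum, Finset.mul_sum]
    refine Finset.sum_congr rfl fun k _ => ?_
    have h3 := wfacC hD hK hW (arr_of_lar (h.lar k)) hx
    have h4 : hermi (H x)⁻¹ (v k) (v k) = (Jm (τ k) x).det ^ m * conj ((Jm (τ k) x).det ^ m) *
        dbp H η η (τ k x) := by
      rw [hv]
      simp only []
      rw [hermi_smul, hermi_nat hD hK (arr_of_lar (h.lar k)) hx, dbp_eq]
    have h5 : (W x : ℂ) * hermi (H x)⁻¹ (v k) (v k) = ((H x).det.re : ℂ) *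
        ((W (τ k x) : ℂ) * dbp H η η (τ k x) / ((H (τ k x)).det.re : ℂ)) := by
      rw [h4]
      linear_combination dbp H η η (τ k x) * h3
    have h6 := congrArg Complex.re h5
    rw [Complex.re_ofReal_mul, Complex.re_ofReal_mul] at h6
    exact h6
  rw [← h2]
  have h6 : 0 ≤ W x * ∑ k, (hermi (H x)⁻¹ (v k) (v k)).re :=
    mul_nonneg hWx (Finset.sum_nonneg fun k _ => hermi_nonneg hpd _)
  have hKN : (K : ℝ) ≤ N := by exact_mod_cast hN
  calc W x * (hermi (H x)⁻¹ (∑ k, v k) (∑ k, v k)).re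
      ≤ W x * (K * ∑ k, (hermi (H x)⁻¹ (v k) (v k)).re) := mul_le_mul_of_nonneg_left h1 hWx
    _ = K * (W x * ∑ k, (hermi (H x)⁻¹ (v k) (v k)).re) := by ring
    _ ≤ _ := mul_le_mul_of_nonneg_right hKN h6

/-- A bound for the number of arrows. -/
theorem N_ex (hL : S_LFIN.{u}) (hE : Et T R) {C : Set (Cn n)} (hCT : C ⊆ T)
    (hC : IsCompact C) {C₂ : Set (Cn n)} (hC₂T : C₂ ⊆ T) (hC₂ : IsCompact C₂) :
    ∃ N : ℕ, ∀ x ∈ C₂, ∃ (U : Set (Cn n)) (K : ℕ) (γ : Fin K → G)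
      (τ : Fin K → Cn n → Cn n), K ≤ N ∧ x ∈ U ∧ LF T R C U K γ τ := by
  refine hC₂.induction_on (p := fun S => ∃ N : ℕ, ∀ x ∈ S, ∃ (U : Set (Cn n)) (K : ℕ)
    (γ : Fin K → G) (τ : Fin K → Cn n → Cn n), K ≤ N ∧ x ∈ U ∧ LF T R C U K γ τ)
    ⟨0, fun x hx => absurd hx (notMem_empty x)⟩ ?_ ?_ ?_
  · rintro s t hst ⟨N, hN⟩
    exact ⟨N, fun x hx => hN x (hst hx)⟩
  · rintro s t ⟨N, hN⟩ ⟨N', hN'⟩
    refine ⟨max N N', fun x hx => ?_⟩
    rcases hx with hx | hx
    · obtain ⟨U, K, γ, τ, h1, h2, h3⟩ := hN x hx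
      exact ⟨U, K, γ, τ, h1.trans (le_max_left _ _), h2, h3⟩
    · obtain ⟨U, K, γ, τ, h1, h2, h3⟩ := hN' x hx
      exact ⟨U, K, γ, τ, h1.trans (le_max_right _ _), h2, h3⟩
  · intro x hx
    obtain ⟨U, K, γ, τ, hxU, h⟩ := LF_ex hL hE hCT hC (hC₂T hx)
    exact ⟨U, mem_nhdsWithin_of_mem_nhds (h.isOpen.mem_nhds hxU), K,
      fun y hy => ⟨U, K, γ, τ, le_rfl, hy, h⟩⟩

/-! ### Integrals -/

theorem dbp_cont (hWI : S_WIRT) (hD : S_DETI.{u}) {H : Cn n → Matrix (Fin n) (Fin n) ℂ}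
    (hK : KEt T R H) {s t : Cn n → ℂ} (hs : ContDiffOn ℝ ∞ s T) (ht : ContDiffOn ℝ ∞ t T) :
    ContinuousOn (dbp H s t) T := by
  have h1 := (hD T R H hK).2.2.1
  have h2 := (hWI T hK.et.isOpen s t hs ht).1
  have h3 := (hWI T hK.et.isOpen t s ht hs).1
  unfold dbp
  refine continuousOn_finsetSum _ fun j _ => continuousOn_finsetSum _ fun k _ => ?_
  exact ((h1 j k).continuousOn.mul (h2 j).2.continuousOn).mul
    (Complex.continuous_conj.comp_continuousOn (h3 k).2.continuousOn)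

/-- Unfolding of an inequality. -/
theorem bndL (hL : S_LFIN.{u}) (hS : S_SWAP.{u}) (hD : S_DETI.{u})
    {H : Cn n → Matrix (Fin n) (Fin n) ℂ} (hK : KEt T R H) {κ : Cn n → ℝ} (hκ : IsPUE T R κ)
    {C : Set (Cn n)} (hCT : C ⊆ T) (hC : IsCompact C) {F : Cn n → ℂ} (hF : ContinuousOn F T)
    (hF0 : ∀ x ∉ C, F x = 0) {g : Cn n → ℝ} {N : ℝ} (hg0 : ∀ x ∈ T, 0 ≤ g x)
    (hg : ∀ x ∈ T, g x ≤ N * (κ x * ((H x).det.re * (AS R x (fun _ y => F y)).re))) :
    ∫ x in T, g x ≤ N * (∫ x in T, F x * ((H x).det.re : ℂ)).re := by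
  obtain ⟨h1, h2⟩ := unfoldL hL hS hD hK hκ hCT hC hF hF0
  have hTm : MeasurableSet T := hK.et.isOpen.measurableSet
  have e : ∀ x, ((κ x : ℂ) * AS R x (fun _ y => F y) * ((H x).det.re : ℂ)).re =
      κ x * ((H x).det.re * (AS R x (fun _ y => F y)).re) := by
    intro x
    rw [Complex.re_mul_ofReal, Complex.re_ofReal_mul]
    ring
  have h3 : IntegrableOn (fun x => N * (κ x * ((H x).det.re *
      (AS R x (fun _ y => F y)).re))) T := by
    have h4 : IntegrableOn (fun x =>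
        ((κ x : ℂ) * AS R x (fun _ y => F y) * ((H x).det.re : ℂ)).re) T := h1.re
    simp only [e] at h4
    exact h4.const_mul N
  calc ∫ x in T, g x ≤ ∫ x in T, N * (κ x * ((H x).det.re * (AS R x (fun _ y => F y)).re)) := by
        refine integral_mono_of_nonneg ?_ h3 ?_
        · exact (ae_restrict_iff' hTm).2 (Eventually.of_forall hg0)
        · exact (ae_restrict_iff' hTm).2 (Eventually.of_forall hg)
    _ = N * ∫ x in T, κ x * ((H x).det.re * (AS R x (fun _ y => F y)).re) :=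
        integral_const_mul _ _
    _ = N * (∫ x in T, (κ x : ℂ) * AS R x (fun _ y => F y) * ((H x).det.re : ℂ)).re := by
        have h5 : ∫ x in T, ((κ x : ℂ) * AS R x (fun _ y => F y) * ((H x).det.re : ℂ)).re =
            (∫ x in T, (κ x : ℂ) * AS R x (fun _ y => F y) * ((H x).det.re : ℂ)).re :=
          integral_re h1
        rw [← h5]
        simp only [e]
    _ = _ := by rw [h2]

theorem autMain (hWI : S_WIRT) (hCH : S_WCH) (hA : S_ARRB.{u}) (hL : S_LFIN.{u})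
    (hI : S_ASI.{u}) (hS : S_SWAP.{u}) (hD : S_DETI.{u}) : S_AUT.{u} := by
  intro n T G _ R H hK κ hκ m W hW C hCT hC
  have hTm : MeasurableSet T := hK.et.isOpen.measurableSet
  obtain ⟨d1, d2, d3, -, -, -⟩ := hD T R H hK
  have hdpos : ∀ x ∈ T, 0 < (H x).det.re := fun x hx => (d1 x hx).2.1
  have hdne : ∀ x ∈ T, ((H x).det.re : ℂ) ≠ 0 := fun x hx => by
    exact_mod_cast (hdpos x hx).ne'
  have cW : ContinuousOn (fun x => (W x : ℂ)) T :=
    Complex.continuous_ofReal.comp_continuousOn hW.smooth.continuousOn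
  have cD' : ContinuousOn (fun x => ((H x).det.re : ℂ)) T :=
    Complex.continuous_ofReal.comp_continuousOn d2.continuousOn
  have hκ0 : ∀ y ∉ tsupport κ, κ y = 0 := fun y hy => image_eq_zero_of_notMem_tsupport hy
  refine ⟨fun η hηs hη => ⟨sec_aut hA hL hI hK.et m hCT hC hηs hη, fun s hs => ⟨?_, ?_⟩⟩,
    ?_, ?_⟩
  · -- inner product
    have hF : ContinuousOn (fun y => (W y : ℂ) * (s y * conj (η y)) / ((H y).det.re : ℂ)) T :=
      ((cW.mul (hs.1.continuousOn.mul (Complex.continuous_conj.comp_continuousOn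
        hηs.continuous.continuousOn))).div cD' hdne)
    have hF0 : ∀ x ∉ C, (W x : ℂ) * (s x * conj (η x)) / ((H x).det.re : ℂ) = 0 :=
      fun x hx => by simp [hη x hx]
    obtain ⟨-, h2⟩ := unfoldL hL hS hD hK hκ hCT hC hF hF0
    unfold ipE
    calc ∫ x in T, ((κ x * W x : ℝ) : ℂ) * (s x * conj (aut R m η x))
        = ∫ x in T, (κ x : ℂ) * AS R x (fun _ y =>
            (W y : ℂ) * (s y * conj (η y)) / ((H y).det.re : ℂ)) * ((H x).det.re : ℂ) := by
          refine setIntegral_congr_fun hTm fun x hx => ?_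
          have h3 := ptw_ip hA hL hD hK hW hCT hC hη hs hx
          push_cast
          linear_combination (κ x : ℂ) * h3
      _ = _ := h2
      _ = _ := by
          refine setIntegral_congr_fun hTm fun x hx => ?_
          exact div_mul_cancel₀ _ (hdne x hx)
  · -- the form
    have hF : ContinuousOn (fun y => (W y : ℂ) * dbp H s η y / ((H y).det.re : ℂ)) T :=
      (cW.mul (dbp_cont hWI hD hK hs.1 hηs.contDiffOn)).div cD' hdne
    have hF0 : ∀ x ∉ C, (W x : ℂ) * dbp H s η x / ((H x).det.re : ℂ) = 0 :=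
      fun x hx => by simp [dbp_zero hC.isClosed hη H s hx]
    obtain ⟨-, h2⟩ := unfoldL hL hS hD hK hκ hCT hC hF hF0
    unfold dipE
    calc ∫ x in T, ((κ x * W x : ℝ) : ℂ) * dbp H s (aut R m η) x
        = ∫ x in T, (κ x : ℂ) * AS R x (fun _ y =>
            (W y : ℂ) * dbp H s η y / ((H y).det.re : ℂ)) * ((H x).det.re : ℂ) := by
          refine setIntegral_congr_fun hTm fun x hx => ?_
          have h3 := ptw_dp hWI hCH hA hL hD hK hW hCT hC hηs hη hs hx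
          push_cast
          linear_combination (κ x : ℂ) * h3
      _ = _ := h2
      _ = _ := by
          refine setIntegral_congr_fun hTm fun x hx => ?_
          exact div_mul_cancel₀ _ (hdne x hx)
  · -- reproduction
    intro s hs x hx
    obtain ⟨U, K, γ, τ, hxU, h⟩ := LF_ex hL hK.et hκ.test.2.2 hκ.test.2.1 hx
    rw [aut_eq hA hK.et h m (fun y hy => by simp [hκ0 y hy]) hxU]
    have h1 := AS_one hL hK.et hκ hx
    rw [h.sum ℂ (fun _ y => (κ y : ℂ)) (fun _ y hy => by simp [hκ0 y hy]) x hxU] at h1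
    calc ∑ k, (κ (τ k x) : ℂ) * s (τ k x) * (Jm (τ k) x).det ^ m
        = ∑ k, (κ (τ k x) : ℂ) * s x := by
          refine Finset.sum_congr rfl fun k _ => ?_
          rw [sec_eq hs (arr_of_lar (h.lar k)) hxU]
          ring
      _ = s x := by rw [← Finset.sum_mul, h1, one_mul]
  · -- bounds
    obtain ⟨N, hN⟩ := N_ex hL hK.et hCT hC hκ.test.2.2 hκ.test.2.1
    obtain ⟨Bw, hBw⟩ := hC.exists_bound_of_continuousOn (hW.smooth.continuousOn.mono hCT)
    have cK : ContinuousOn (fun x => ∑ j, ∑ k, ‖(H x)⁻¹ j k‖) C :=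
      continuousOn_finsetSum _ fun j _ => continuousOn_finsetSum _ fun k _ =>
        ((d3 j k).continuousOn.mono hCT).norm
    obtain ⟨Bk, hBk⟩ := hC.exists_bound_of_continuousOn cK
    have hBw0 : ∀ x ∈ C, W x ≤ |Bw| := fun x hx =>
      (le_abs_self _).trans ((hBw x hx).trans (le_abs_self _))
    refine ⟨N * |Bw| + N * (|Bw| * (|Bk| * n)), fun η hηs hη => ⟨?_, ?_⟩⟩
    · -- norms
      have hF : ContinuousOn (fun y => ((W y * ‖η y‖ ^ 2 / (H y).det.re : ℝ) : ℂ)) T :=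
        Complex.continuous_ofReal.comp_continuousOn
          ((hW.smooth.continuousOn.mul ((hηs.continuous.norm.pow 2).continuousOn)).div
            d2.continuousOn fun x hx => (hdpos x hx).ne')
      have hF0 : ∀ x ∉ C, ((W x * ‖η x‖ ^ 2 / (H x).det.re : ℝ) : ℂ) = 0 :=
        fun x hx => by simp [hη x hx]
      have h1 : nsE T κ W (aut R m η) ≤ N * (∫ x in T,
          ((W x * ‖η x‖ ^ 2 / (H x).det.re : ℝ) : ℂ) * ((H x).det.re : ℂ)).re := by
        refine bndL hL hS hD hK hκ hCT hC hF hF0 (fun x hx => ?_) (fun x hx => ?_)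
        · exact mul_nonneg (mul_nonneg (hκ.nonneg x) (hW.pos x hx).le) (by positivity)
        · by_cases hxκ : x ∈ tsupport κ
          · obtain ⟨U, K, γ, τ, hKN, hxU, h⟩ := hN x hxκ
            have h2 := ptw_ns hA hD hK hW h hKN hη hxU
            have h3 := mul_le_mul_of_nonneg_left h2 (hκ.nonneg x)
            calc _ = κ x * (W x * ‖aut R m η x‖ ^ 2) := by ring
              _ ≤ _ := h3
              _ = _ := by ring
          · rw [hκ0 x hxκ]
            simp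
      have h2 : (∫ x in T, ((W x * ‖η x‖ ^ 2 / (H x).det.re : ℝ) : ℂ) *
          ((H x).det.re : ℂ)).re = ∫ x in C, W x * ‖η x‖ ^ 2 := by
        have e1 : ∫ x in T, ((W x * ‖η x‖ ^ 2 / (H x).det.re : ℝ) : ℂ) * ((H x).det.re : ℂ) =
            ∫ x in T, ((W x * ‖η x‖ ^ 2 : ℝ) : ℂ) := by
          refine setIntegral_congr_fun hTm fun x hx => ?_
          rw [← Complex.ofReal_mul, div_mul_cancel₀ _ (hdpos x hx).ne']
        rw [e1, integral_complex_ofReal, Complex.ofReal_re]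
        exact setIntegral_eq_of_subset_of_forall_sdiff_eq_zero hTm hCT fun x hx => by
          simp [hη x hx.2]
      have h3 : ∫ x in C, W x * ‖η x‖ ^ 2 ≤ |Bw| * ∫ x in C, ‖η x‖ ^ 2 := by
        rw [← integral_const_mul]
        refine setIntegral_mono_on ?_ ?_ hC.measurableSet fun x hx => ?_
        · exact ((hW.smooth.continuousOn.mono hCT).mul
            (hηs.continuous.norm.pow 2).continuousOn).integrableOn_compact hC
        · exact (continuousOn_const.mul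
            (hηs.continuous.norm.pow 2).continuousOn).integrableOn_compact hC
        · exact mul_le_mul_of_nonneg_right (hBw0 x hx) (by positivity)
      have h4 : 0 ≤ ∫ x in C, ‖η x‖ ^ 2 := integral_nonneg fun x => by positivity
      have h5 : 0 ≤ (N : ℝ) * (|Bw| * (|Bk| * n)) * ∫ x in C, ‖η x‖ ^ 2 := by positivity
      rw [h2] at h1
      have h6 := mul_le_mul_of_nonneg_left h3 (Nat.cast_nonneg (α := ℝ) N)
      rw [add_mul]
      linarith
    · -- forms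
      have hsa := sec_aut hA hL hI hK.et m hCT hC hηs hη
      have hF : ContinuousOn (fun y => (W y : ℂ) * dbp H η η y / ((H y).det.re : ℂ)) T :=
        (cW.mul (dbp_cont hWI hD hK hηs.contDiffOn hηs.contDiffOn)).div cD' hdne
      have hF0 : ∀ x ∉ C, (W x : ℂ) * dbp H η η x / ((H x).det.re : ℂ) = 0 :=
        fun x hx => by simp [dbp_zero hC.isClosed hη H η hx]
      have hfi : IntegrableOn (fun x => ((κ x * W x : ℝ) : ℂ) *
          dbp H (aut R m η) (aut R m η) x) T := by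
        refine (intC hκ.test.2.2 hκ.test.2.1 ?_ ?_).integrableOn
        · exact (Complex.continuous_ofReal.comp_continuousOn
            (hκ.test.1.continuous.continuousOn.mul hW.smooth.continuousOn)).mul
              (dbp_cont hWI hD hK hsa.1 hsa.1)
        · intro x hx
          simp [hκ0 x hx]
      have h0 : (dipE T κ W H (aut R m η) (aut R m η)).re =
          ∫ x in T, κ x * (W x * (dbp H (aut R m η) (aut R m η) x).re) := by
        unfold dipE
        have h1 : ∫ x in T, (((κ x * W x : ℝ) : ℂ) * dbp H (aut R m η) (aut R m η) x).re =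
            (∫ x in T, ((κ x * W x : ℝ) : ℂ) * dbp H (aut R m η) (aut R m η) x).re :=
          integral_re hfi
        rw [← h1]
        refine integral_congr_ae (Eventually.of_forall fun x => ?_)
        simp only []
        rw [Complex.re_ofReal_mul]
        ring
      have h1 : (dipE T κ W H (aut R m η) (aut R m η)).re ≤ N * (∫ x in T,
          (W x : ℂ) * dbp H η η x / ((H x).det.re : ℂ) * ((H x).det.re : ℂ)).re := by
        rw [h0]
        refine bndL hL hS hD hK hκ hCT hC hF hF0 (fun x hx => ?_) (fun x hx => ?_)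
        · by_cases hxκ : x ∈ tsupport κ
          · obtain ⟨U, K, γ, τ, hKN, hxU, h⟩ := hN x hxκ
            exact mul_nonneg (hκ.nonneg x)
              (ptw_nd hWI hCH hA hD hK hW hC h hKN hηs hη hxU).1
          · rw [hκ0 x hxκ]
            simp
        · by_cases hxκ : x ∈ tsupport κ
          · obtain ⟨U, K, γ, τ, hKN, hxU, h⟩ := hN x hxκ
            have h2 := (ptw_nd hWI hCH hA hD hK hW hC h hKN hηs hη hxU).2
            have h3 := mul_le_mul_of_nonneg_left h2 (hκ.nonneg x)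
            calc _ ≤ _ := h3
              _ = _ := by ring
          · rw [hκ0 x hxκ]
            simp
      have hIT : IntegrableOn (fun x => (W x : ℂ) * dbp H η η x) T :=
        (intC hCT hC (cW.mul (dbp_cont hWI hD hK hηs.contDiffOn hηs.contDiffOn))
          fun x hx => by simp [dbp_zero hC.isClosed hη H η hx]).integrableOn
      have h2 : (∫ x in T, (W x : ℂ) * dbp H η η x / ((H x).det.re : ℂ) *
          ((H x).det.re : ℂ)).re = ∫ x in C, W x * (dbp H η η x).re := by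
        have e1 : ∫ x in T, (W x : ℂ) * dbp H η η x / ((H x).det.re : ℂ) *
            ((H x).det.re : ℂ) = ∫ x in T, (W x : ℂ) * dbp H η η x := by
          refine setIntegral_congr_fun hTm fun x hx => ?_
          exact div_mul_cancel₀ _ (hdne x hx)
        have e2 : ∫ x in T, ((W x : ℂ) * dbp H η η x).re =
            (∫ x in T, (W x : ℂ) * dbp H η η x).re := integral_re hIT
        rw [e1, ← e2]
        have e3 : ∫ x in T, ((W x : ℂ) * dbp H η η x).re =
            ∫ x in T, W x * (dbp H η η x).re := by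
          refine integral_congr_ae (Eventually.of_forall fun x => ?_)
          exact Complex.re_ofReal_mul _ _
        rw [e3]
        exact setIntegral_eq_of_subset_of_forall_sdiff_eq_zero hTm hCT fun x hx => by
          simp [dbp_zero hC.isClosed hη H η hx.2]
      have hq : ∀ x ∈ C, W x * (dbp H η η x).re ≤
          |Bw| * (|Bk| * n) * ∑ j, ‖cdb j η x‖ ^ 2 := by
        intro x hx
        have q1 : (dbp H η η x).re ≤ |Bk| * n * ∑ j, ‖cdb j η x‖ ^ 2 := by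
          have q2 : ‖dbp H η η x‖ ≤ ∑ j, ∑ k, ‖(H x)⁻¹ j k‖ * (∑ l, ‖cdb l η x‖) ^ 2 := by
            unfold dbp
            refine (norm_sum_le _ _).trans (Finset.sum_le_sum fun j _ => ?_)
            refine (norm_sum_le _ _).trans (Finset.sum_le_sum fun k _ => ?_)
            rw [norm_mul, norm_mul, Complex.norm_conj, mul_assoc, sq]
            have q3 : ∀ j, ‖cdb j η x‖ ≤ ∑ l, ‖cdb l η x‖ := fun j =>
              Finset.single_le_sum (f := fun l => ‖cdb l η x‖) (fun _ _ => norm_nonneg _)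
                (Finset.mem_univ j)
            gcongr
            · exact q3 j
            · exact q3 k
          have q4 := sq_sum_le_card_mul_sum_sq (s := (Finset.univ : Finset (Fin n)))
            (f := fun j => ‖cdb j η x‖)
          rw [Finset.card_univ, Fintype.card_fin] at q4
          have q5 : ∑ j, ∑ k, ‖(H x)⁻¹ j k‖ ≤ |Bk| :=
            (le_abs_self _).trans ((hBk x hx).trans (le_abs_self _))
          calc (dbp H η η x).re ≤ ‖dbp H η η x‖ := Complex.re_le_norm _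
            _ ≤ _ := q2
            _ = (∑ j, ∑ k, ‖(H x)⁻¹ j k‖) * (∑ l, ‖cdb l η x‖) ^ 2 := by
                rw [Finset.sum_mul]
                refine Finset.sum_congr rfl fun j _ => ?_
                rw [Finset.sum_mul]
            _ ≤ |Bk| * (n * ∑ l, ‖cdb l η x‖ ^ 2) :=
                mul_le_mul q5 q4 (by positivity) (abs_nonneg _)
            _ = _ := by ring
        have q0 : 0 ≤ |Bk| * n * ∑ j, ‖cdb j η x‖ ^ 2 := by positivity
        calc W x * (dbp H η η x).re ≤ W x * (|Bk| * n * ∑ j, ‖cdb j η x‖ ^ 2) :=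
              mul_le_mul_of_nonneg_left q1 (hW.pos x (hCT hx)).le
          _ ≤ |Bw| * (|Bk| * n * ∑ j, ‖cdb j η x‖ ^ 2) :=
              mul_le_mul_of_nonneg_right (hBw0 x hx) q0
          _ = _ := by ring
      have cη : ∀ j, Continuous (cdb j η) := fun j => by
        have := ((hWI univ isOpen_univ η η hηs.contDiffOn hηs.contDiffOn).1 j).2.continuousOn
        exact continuousOn_univ.1 this
      have h3 : ∫ x in C, W x * (dbp H η η x).re ≤
          |Bw| * (|Bk| * n) * ∫ x in C, ∑ j, ‖cdb j η x‖ ^ 2 := by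
        rw [← integral_const_mul]
        refine setIntegral_mono_on ?_ ?_ hC.measurableSet hq
        · have : IntegrableOn (fun x => ((W x : ℂ) * dbp H η η x).re) C :=
            (hIT.mono_set hCT).re
          refine this.congr (Eventually.of_forall fun x => ?_)
          exact Complex.re_ofReal_mul _ _
        · have hcont : Continuous fun x => |Bw| * (|Bk| * n) * ∑ j, ‖cdb j η x‖ ^ 2 :=
            continuous_const.mul (continuous_finsetSum _ fun j _ => (cη j).norm.pow 2)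
          exact hcont.continuousOn.integrableOn_compact hC
      have h4 : 0 ≤ ∫ x in C, ∑ j, ‖cdb j η x‖ ^ 2 := integral_nonneg fun x => by positivity
      have h5 : 0 ≤ (N : ℝ) * |Bw| * ∫ x in C, ∑ j, ‖cdb j η x‖ ^ 2 := by positivity
      rw [h2] at h1
      have h6 := mul_le_mul_of_nonneg_left h3 (Nat.cast_nonneg (α := ℝ) N)
      rw [add_mul]
      linarith

end

theorem aut (hWI : S_WIRT) (hCH : S_WCH) (hA : S_ARRB.{u}) (hL : S_LFIN.{u})
    (hI : S_ASI.{u}) (hS : S_SWAP.{u}) (hD : S_DETI.{u}) : S_AUT.{u} :=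
  autMain hWI hCH hA hL hI hS hD

end Pool.Agent.Helper62.SP
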