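import Pool.Agent.Helper10.SP.GoalsA

/-! # Linear algebra for `FINV` -/

open Complex Metric Set Filter Topology MeasureTheory
open scoped ContDiff ComplexConjugate ComplexOrder Manifold Matrix

namespace Pool.Agent.Helper62.SP

open Pool.Agent.Helper95.Lin Pool.Agent.Helper16.Abund Pool.Agent.Helper92.Orb
open Pool.Agent.Helper10.SP

/-- Conjugate vector. -/
noncomputable def cj {n : ℕ} (v : Cn n) : Cn n := fun j => conj (v j)

theorem mc_apply {n : ℕ} (X : Matrix (Fin n) (Fin n) ℂ) (i j : Fin n) :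
    mc X i j = conj (X i j) := rfl

theorem mc_mul {n : ℕ} (X Y : Matrix (Fin n) (Fin n) ℂ) : mc (X * Y) = mc X * mc Y := by
  unfold mc
  rw [Matrix.map_mul]

theorem mc_add {n : ℕ} (X Y : Matrix (Fin n) (Fin n) ℂ) : mc (X + Y) = mc X + mc Y := by
  ext i j
  simp [mc_apply]

theorem mc_smul {n : ℕ} (c : ℂ) (X : Matrix (Fin n) (Fin n) ℂ) : mc (c • X) = conj c • mc X := by
  ext i j
  simp [mc_apply]

theorem mc_mc {n : ℕ} (X : Matrix (Fin n) (Fin n) ℂ) : mc (mc X) = X := by
  ext i j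
  simp [mc_apply]

theorem mc_one {n : ℕ} : mc (1 : Matrix (Fin n) (Fin n) ℂ) = 1 := by
  ext i j
  by_cases h : i = j <;> simp [mc_apply, Matrix.one_apply, h]

theorem mc_vecMulVec {n : ℕ} (v b : Cn n) :
    mc (Matrix.vecMulVec v b) = Matrix.vecMulVec (cj v) (cj b) := by
  ext i j
  simp [mc_apply, Matrix.vecMulVec_apply, cj]

theorem cj_cj {n : ℕ} (v : Cn n) : cj (cj v) = v := by
  ext i
  simp [cj]

theorem cj_zero {n : ℕ} : cj (0 : Cn n) = 0 := by
  ext i
  simp [cj]

theorem cj_mulVec {n : ℕ} (X : Matrix (Fin n) (Fin n) ℂ) (v : Cn n) :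
    cj (X *ᵥ v) = mc X *ᵥ cj v := by
  ext i
  simp [cj, Matrix.mulVec, dotProduct, mc_apply]

theorem cj_smul {n : ℕ} (c : ℂ) (v : Cn n) : cj (c • v) = conj c • cj v := by
  ext i
  simp [cj]

/-- The transformation of `tr (T T̄)`. -/
theorem tr_lem {n : ℕ} (A T T' : Matrix (Fin n) (Fin n) ℂ) (v v' b : Cn n) (c : ℂ)
    (hA : A.det ≠ 0) (hv : v ≠ 0) (hc : c ≠ 0) (h1 : A *ᵥ v' = c • v) (h2 : T *ᵥ cj v = 0)
    (h3 : T' *ᵥ cj v' = 0)
    (h : A * T' = Matrix.vecMulVec v b + c • (T * mc A)) :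
    Matrix.trace (T' * mc T') = ((normSq c : ℝ) : ℂ) * Matrix.trace (T * mc T) := by
  have hAu : IsUnit A.det := isUnit_iff_ne_zero.2 hA
  have e1 : A * A⁻¹ = 1 := Matrix.mul_nonsing_inv A hAu
  have e2 : A⁻¹ * A = 1 := Matrix.nonsing_inv_mul A hAu
  have e3 : mc A * mc A⁻¹ = 1 := by rw [← mc_mul, e1, mc_one]
  have e4 : mc A⁻¹ * mc A = 1 := by rw [← mc_mul, e2, mc_one]
  have hAv : mc A *ᵥ cj v' = conj c • cj v := by rw [← cj_mulVec, h1, cj_smul]
  -- `b · conj v' = 0`
  have hb : b ⬝ᵥ cj v' = 0 := by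
    have hz : (A * T') *ᵥ cj v' = 0 := by
      rw [← Matrix.mulVec_mulVec, h3, Matrix.mulVec_zero]
    rw [h, Matrix.add_mulVec, Matrix.smul_mulVec, ← Matrix.mulVec_mulVec, hAv,
      Matrix.mulVec_smul, h2, smul_zero, smul_zero, add_zero, Matrix.vecMulVec_mulVec] at hz
    obtain ⟨i, hi⟩ := Function.ne_iff.1 hv
    have hzi := congrFun hz i
    simp only [Pi.smul_apply, MulOpposite.smul_eq_mul_unop, MulOpposite.unop_op,
      Pi.zero_apply] at hzi
    exact (mul_eq_zero.1 hzi).resolve_left hi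
  set b' : Cn n := b ᵥ* mc A⁻¹ with hb'
  have hb'v : b' ⬝ᵥ cj v = 0 := by
    have : cj v = (conj c)⁻¹ • (mc A *ᵥ cj v') := by
      rw [hAv, smul_smul, inv_mul_cancel₀ (by simpa using hc), one_smul]
    rw [this, dotProduct_smul, hb', ← Matrix.dotProduct_mulVec, Matrix.mulVec_mulVec, e4,
      Matrix.one_mulVec, hb, smul_zero]
  have hY : A * T' * mc A⁻¹ = Matrix.vecMulVec v b' + c • T := by
    rw [h, Matrix.add_mul, Matrix.vecMulVec_mul, Matrix.smul_mul, Matrix.mul_assoc, e3,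
      Matrix.mul_one]
  have hYc : mc A * mc T' * A⁻¹ = Matrix.vecMulVec (cj v) (cj b') + conj c • mc T := by
    have := congrArg mc hY
    rw [mc_mul, mc_mul, mc_mc, mc_add, mc_vecMulVec, mc_smul] at this
    exact this
  have ht : Matrix.trace (T' * mc T') =
      Matrix.trace ((A * T' * mc A⁻¹) * (mc A * mc T' * A⁻¹)) := by
    have : (A * T' * mc A⁻¹) * (mc A * mc T' * A⁻¹) = A * (T' * mc T') * A⁻¹ := by
      calc (A * T' * mc A⁻¹) * (mc A * mc T' * A⁻¹)
          = A * T' * (mc A⁻¹ * mc A) * (mc T' * A⁻¹) := by simp only [Matrix.mul_assoc]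
        _ = A * (T' * mc T') * A⁻¹ := by rw [e4, Matrix.mul_one]; simp only [Matrix.mul_assoc]
    rw [this, Matrix.trace_mul_comm (A * (T' * mc T')) A⁻¹, ← Matrix.mul_assoc, e2,
      Matrix.one_mul]
  have h2c : mc T *ᵥ v = 0 := by
    have := congrArg cj h2
    rwa [cj_mulVec, cj_cj, cj_zero] at this
  rw [ht, hY, hYc, Matrix.add_mul, Matrix.mul_add, Matrix.mul_add, Matrix.trace_add,
    Matrix.trace_add, Matrix.trace_add]
  have t1 : Matrix.trace (Matrix.vecMulVec v b' * Matrix.vecMulVec (cj v) (cj b')) = 0 := by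
    rw [Matrix.vecMulVec_mul_vecMulVec, hb'v]
    simp
  have t2 : Matrix.trace (Matrix.vecMulVec v b' * (conj c • mc T)) = 0 := by
    rw [Matrix.mul_smul, Matrix.trace_smul, Matrix.vecMulVec_mul, Matrix.trace_vecMulVec,
      dotProduct_comm, ← Matrix.dotProduct_mulVec, h2c]
    simp
  have t3 : Matrix.trace (c • T * Matrix.vecMulVec (cj v) (cj b')) = 0 := by
    rw [Matrix.smul_mul, Matrix.trace_smul, Matrix.mul_vecMulVec, h2]
    simp
  have t4 : Matrix.trace (c • T * conj c • mc T) = ((normSq c : ℝ) : ℂ) *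
      Matrix.trace (T * mc T) := by
    rw [Matrix.smul_mul, Matrix.mul_smul, Matrix.trace_smul, Matrix.trace_smul, smul_eq_mul,
      smul_eq_mul, ← mul_assoc, Complex.mul_conj]
  rw [t1, t2, t3, t4]
  ring

/-- The adjugate of a Hermitian matrix of corank one. -/
theorem adj_lem {n : ℕ} (i : Fin n) (H : Matrix (Fin n) (Fin n) ℂ) (v : Cn n)
    (hH : H.IsHermitian) (hvi : v i = 1) (hker : ∀ k, ∑ j, H j k * v j = 0)
    (honly : ∀ e : Cn n, (∀ k, ∑ j, H j k * e j = 0) → ∃ c : ℂ, e = c • v)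
    (hrow : ∀ j, H.adjugate i j = H.adjugate i i * v j) (hre : (H.adjugate i i).im = 0)
    (j k : Fin n) : H.adjugate j k = H.adjugate i i * (conj (v j) * v k) := by
  have hdet : H.det = 0 := by
    refine Matrix.exists_vecMul_eq_zero_iff.1 ⟨v, ?_, ?_⟩
    · intro h0
      rw [h0] at hvi
      simp at hvi
    · ext k
      simp only [Matrix.vecMul, dotProduct, Pi.zero_apply]
      rw [← hker k]
      exact Finset.sum_congr rfl fun j _ => mul_comm _ _
  obtain ⟨c, hc⟩ := honly (fun p => H.adjugate j p) (by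
    intro k
    have h1 : (H.adjugate * H) j k = 0 := by
      rw [Matrix.adjugate_mul, hdet]
      simp
    rw [Matrix.mul_apply] at h1
    rw [← h1]
    exact Finset.sum_congr rfl fun p _ => mul_comm _ _)
  have hck : ∀ p, H.adjugate j p = c * v p := fun p => by
    have := congrFun hc p
    simpa using this
  have hci : c = H.adjugate j i := by
    have := hck i
    rw [hvi, mul_one] at this
    exact this.symm
  have hHa : (H.adjugate)ᴴ = H.adjugate := by
    rw [Matrix.adjugate_conjTranspose, hH.eq]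
  have hji : H.adjugate j i = conj (H.adjugate i j) := by
    conv_lhs => rw [← hHa]
    rw [Matrix.conjTranspose_apply]
    rfl
  have hrr : conj (H.adjugate i i) = H.adjugate i i := by
    rw [Complex.conj_eq_iff_im]
    exact hre
  rw [hck k, hci, hji, hrow j, map_mul, hrr]
  ring

/-- Transformation of the principal cofactor. -/
theorem cof_lem {n : ℕ} (i i' : Fin n) (H J : Matrix (Fin n) (Fin n) ℂ) (v v' : Cn n) (c : ℂ)
    (hadj : ∀ j k, H.adjugate j k = H.adjugate i i * (conj (v j) * v k))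
    (hJ : v' ᵥ* J = c • v) (hv' : v' i' = 1) :
    (J * H * Jᴴ).adjugate i' i' * ((normSq c : ℝ) : ℂ) =
      H.adjugate i i * ((normSq J.det : ℝ) : ℂ) := by
  have hs : c * ∑ k, v k * J.adjugate k i' = J.det := by
    have h1 : (v' ᵥ* J) ᵥ* J.adjugate = J.det • v' := by
      rw [Matrix.vecMul_vecMul, Matrix.mul_adjugate, Matrix.vecMul_smul, Matrix.vecMul_one]
    rw [hJ, Matrix.smul_vecMul] at h1
    have h2 := congrFun h1 i'
    simp only [Pi.smul_apply, smul_eq_mul, hv', mul_one, Matrix.vecMul, dotProduct] at h2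
    exact h2
  set s : ℂ := ∑ k, v k * J.adjugate k i' with hsdef
  have hA : (J * H * Jᴴ).adjugate i' i' = H.adjugate i i * (conj s * s) := by
    rw [Matrix.adjugate_mul_distrib, Matrix.adjugate_mul_distrib,
      ← Matrix.adjugate_conjTranspose, Matrix.mul_apply]
    have h3 : ∀ j, (J.adjugate)ᴴ i' j = conj (J.adjugate j i') := fun j => rfl
    have h4 : ∀ j, (H.adjugate * J.adjugate) j i' = H.adjugate i i * conj (v j) * s := by
      intro j
      rw [Matrix.mul_apply, hsdef, Finset.mul_sum]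
      refine Finset.sum_congr rfl fun k _ => ?_
      rw [hadj j k]
      ring
    simp only [h3, h4]
    rw [hsdef, map_sum, Finset.sum_mul, Finset.mul_sum]
    refine Finset.sum_congr rfl fun j _ => ?_
    rw [map_mul]
    ring
  rw [hA, ← hs, normSq_mul]
  have : (conj s * s) = ((normSq s : ℝ) : ℂ) := by rw [mul_comm, Complex.mul_conj]
  rw [this]
  push_cast
  ring

end Pool.Agent.Helper62.SP
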